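import Mathlib

set_option autoImplicit false

/-!
# A parity relation between `3y²-x²` and `3l²+2t²`

For `M ≡ 11 (mod 24)` the number of solutions of `3(j+t)² = t² + M` and the number of solutions of
`3l² + 2t² = M` in positive integers have the same parity.

The form `3a² + 2c² - b²` has the four reflections `c ↦ -c`, `a ↦ -a` and those in `(b,c,a) =
(1,0,1), (1,1,0)`; they bound a quadrilateral of the hyperbolic plane. A vector `v` of norm `M` is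
looked at through the signs of its inner products with the four corners of the quadrilateral; the
number of sign changes around the quadrilateral is even, and the reflections give involutions on
the sets of vectors with a given sign change.
-/

namespace Pool.Agent.Q247.TC.Parity

open Finset

/-- vectors `(b, c, a)` of norm `M` in a box -/
noncomputable def V (M : ℤ) : Finset (ℤ × ℤ × ℤ) :=
  ((Icc (-(10 * M)) (10 * M)) ×ˢ (Icc (-(10 * M)) (10 * M)) ×ˢ (Icc (-(10 * M)) (10 * M))).filter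
    fun v => 3 * v.2.2 ^ 2 + 2 * v.2.1 ^ 2 - v.1 ^ 2 = M

theorem mem_V {M b c a : ℤ} : (b, c, a) ∈ V M ↔ ((-(10 * M) ≤ b ∧ b ≤ 10 * M) ∧
    (-(10 * M) ≤ c ∧ c ≤ 10 * M) ∧ (-(10 * M) ≤ a ∧ a ≤ 10 * M)) ∧
    3 * a ^ 2 + 2 * c ^ 2 - b ^ 2 = M := by
  simp [V, mem_filter, mem_product, mem_Icc]

/-- sets defined by a condition on the vectors -/
noncomputable def D (M : ℤ) (P : ℤ → ℤ → ℤ → Prop) [∀ b c a, Decidable (P b c a)] : Finset (ℤ × ℤ × ℤ) :=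
  (V M).filter fun v => P v.1 v.2.1 v.2.2

theorem mem_D {M : ℤ} {P : ℤ → ℤ → ℤ → Prop} [∀ b c a, Decidable (P b c a)] {b c a : ℤ} :
    (b, c, a) ∈ D M P ↔ (b, c, a) ∈ V M ∧ P b c a := by
  simp [D, mem_filter]

theorem card_zero {M : ℤ} {P : ℤ → ℤ → ℤ → Prop} [∀ b c a, Decidable (P b c a)]
    (g : ℤ × ℤ × ℤ → ℤ × ℤ × ℤ) (h1 : ∀ v ∈ D M P, g v ∈ D M P) (h2 : ∀ v ∈ D M P, g (g v) = v)
    (h3 : ∀ v ∈ D M P, g v ≠ v) : ((D M P).card : ZMod 2) = 0 := by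
  have : ((D M P).card : ZMod 2) = ∑ v ∈ D M P, (1 : ZMod 2) := by simp
  rw [this]
  refine sum_involution (fun v _ => g v) (fun v _ => by decide) (fun v hv _ => h3 v hv)
    (fun v hv => h1 v hv) (fun v hv => h2 v hv)

theorem abs_bd {x M : ℤ} (h : x ^ 2 ≤ M) : -M ≤ x ∧ x ≤ M := by
  constructor <;> nlinarith [sq_nonneg (x - 1), sq_nonneg (x + 1)]

theorem sq_mod3 (x : ℤ) : x ^ 2 % 3 = 0 ∨ x ^ 2 % 3 = 1 := by
  have h : x % 3 = 0 ∨ x % 3 = 1 ∨ x % 3 = 2 := by omega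
  rcases h with h | h | h <;> simp [pow_two, Int.mul_emod, h]

theorem sq_mod8 (x : ℤ) : x ^ 2 % 8 = 0 ∨ x ^ 2 % 8 = 1 ∨ x ^ 2 % 8 = 4 := by
  have h : x % 8 = 0 ∨ x % 8 = 1 ∨ x % 8 = 2 ∨ x % 8 = 3 ∨ x % 8 = 4 ∨ x % 8 = 5 ∨ x % 8 = 6 ∨
    x % 8 = 7 := by omega
  rcases h with h | h | h | h | h | h | h | h <;> simp [pow_two, Int.mul_emod, h]

variable {M : ℤ}

theorem s1_ne (hM : M % 24 = 11) {a b c : ℤ} (h : 3 * a ^ 2 + 2 * c ^ 2 - b ^ 2 = M) : b ≠ a := by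
  rintro rfl
  have : M = 2 * (b ^ 2 + c ^ 2) := by rw [← h]; ring
  omega

theorem s2_ne (hM : M % 24 = 11) {a b c : ℤ} (h : 3 * a ^ 2 + 2 * c ^ 2 - b ^ 2 = M) :
    b ≠ a + c := by
  rintro rfl
  have h1 : M = a ^ 2 + (a - c) ^ 2 := by rw [← h]; ring
  have h2 := sq_mod8 a
  have h3 := sq_mod8 (a - c)
  omega

theorem s3_ne (hM : M % 24 = 11) {a b c : ℤ} (h : 3 * a ^ 2 + 2 * c ^ 2 - b ^ 2 = M) : b ≠ c := by
  rintro rfl
  have h1 : M = 3 * a ^ 2 + b ^ 2 := by rw [← h]; ring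
  have h2 := sq_mod3 b
  omega

/-- first sign change -/
theorem D12 (hM : M % 24 = 11) :
    ((D M fun b c a => b < a ∧ ¬ b < a + c).card : ZMod 2) = 0 := by
  have bound : ∀ b c a : ℤ, 3 * a ^ 2 + 2 * c ^ 2 - b ^ 2 = M → b < a → ¬ b < a + c →
      (b, c, a) ∈ V M := by
    intro b c a h h1 h2
    obtain ⟨A, rfl⟩ : ∃ A, b = a - A := ⟨a - b, by ring⟩
    obtain ⟨C, rfl⟩ : ∃ C, c = - A - C := ⟨-A - c, by ring⟩
    have hA : 0 < A := by linarith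
    have hC : 0 ≤ C := by linarith
    have h3 : a ^ 2 + (a + A) ^ 2 + 4 * (A * C) + 2 * C ^ 2 = M := by rw [← h]; ring
    have h4 : 0 ≤ A * C := mul_nonneg hA.le hC
    have b1 := abs_bd (x := a) (M := M) (by nlinarith [sq_nonneg (a + A), sq_nonneg C])
    have b2 := abs_bd (x := a + A) (M := M) (by nlinarith [sq_nonneg a, sq_nonneg C])
    have b3 := abs_bd (x := C) (M := M) (by nlinarith [sq_nonneg a, sq_nonneg (a + A), sq_nonneg C])
    rw [mem_V]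
    refine ⟨⟨⟨?_, ?_⟩, ⟨?_, ?_⟩, ⟨?_, ?_⟩⟩, h⟩ <;> linarith [b1.1, b1.2, b2.1, b2.2, b3.1, b3.2]
  refine card_zero (fun v => (2 * v.1 - 3 * v.2.2, v.2.1, v.1 - 2 * v.2.2)) ?_ ?_ ?_
  · rintro ⟨b, c, a⟩ hv
    rw [mem_D] at hv ⊢
    obtain ⟨hv, h1, h2⟩ := hv
    have h := (mem_V.1 hv).2
    refine ⟨bound _ _ _ ?_ ?_ ?_, ?_, ?_⟩
    · rw [← h]; ring
    · linarith
    · dsimp only; omega
    · dsimp only; linarith
    · dsimp only; omega
  · rintro ⟨b, c, a⟩ _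
    ext <;> dsimp only <;> ring
  · rintro ⟨b, c, a⟩ hv he
    rw [mem_D] at hv
    have h := (mem_V.1 hv.1).2
    simp only [Prod.mk.injEq] at he
    have h1 : b = 3 * a := by linarith [he.1]
    subst h1
    have : M = 2 * (c ^ 2 - 3 * a ^ 2) := by rw [← h]; ring
    omega

/-- second sign change -/
theorem D23 (hM : M % 24 = 11) :
    ((D M fun b c a => b < a + c ∧ ¬ b < c).card : ZMod 2) = 0 := by
  have bound : ∀ b c a : ℤ, 3 * a ^ 2 + 2 * c ^ 2 - b ^ 2 = M → b < a + c → ¬ b < c →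
      (b, c, a) ∈ V M := by
    intro b c a h h1 h2
    obtain ⟨W, rfl⟩ : ∃ W, b = c + W := ⟨b - c, by ring⟩
    obtain ⟨U, rfl⟩ : ∃ U, a = U + W := ⟨a - W, by ring⟩
    have hW : 0 ≤ W := by linarith
    have hU : 0 < U := by linarith
    have h3 : (c - W) ^ 2 + 3 * U ^ 2 + 6 * (U * W) + W ^ 2 = M := by rw [← h]; ring
    have h4 : 0 ≤ U * W := mul_nonneg hU.le hW
    have b1 := abs_bd (x := c - W) (M := M) (by nlinarith [sq_nonneg U, sq_nonneg W])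
    have b2 := abs_bd (x := U) (M := M) (by nlinarith [sq_nonneg (c - W), sq_nonneg W])
    have b3 := abs_bd (x := W) (M := M) (by nlinarith [sq_nonneg (c - W), sq_nonneg U])
    rw [mem_V]
    refine ⟨⟨⟨?_, ?_⟩, ⟨?_, ?_⟩, ⟨?_, ?_⟩⟩, h⟩ <;> linarith [b1.1, b1.2, b2.1, b2.2, b3.1, b3.2]
  refine card_zero (fun v => (3 * v.1 - 4 * v.2.1, 2 * v.1 - 3 * v.2.1, v.2.2)) ?_ ?_ ?_
  · rintro ⟨b, c, a⟩ hv
    rw [mem_D] at hv ⊢
    obtain ⟨hv, h1, h2⟩ := hv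
    have h := (mem_V.1 hv).2
    refine ⟨bound _ _ _ ?_ ?_ ?_, ?_, ?_⟩
    · rw [← h]; ring
    · linarith
    · dsimp only; omega
    · dsimp only; linarith
    · dsimp only; omega
  · rintro ⟨b, c, a⟩ _
    ext <;> dsimp only <;> ring
  · rintro ⟨b, c, a⟩ hv he
    rw [mem_D] at hv
    have h := (mem_V.1 hv.1).2
    simp only [Prod.mk.injEq] at he
    have h1 : b = 2 * c := by linarith [he.1]
    subst h1
    have h2 : M = 3 * a ^ 2 - 2 * c ^ 2 := by rw [← h]; ring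
    have h3 := sq_mod3 c
    omega

/-- third sign change -/
theorem D30 (hM : M % 24 = 11) :
    ((D M fun b c _ => b < c ∧ 0 < b).card : ZMod 2) = 0 := by
  have bound : ∀ b c a : ℤ, 3 * a ^ 2 + 2 * c ^ 2 - b ^ 2 = M → b < c → 0 < b →
      (b, c, a) ∈ V M := by
    intro b c a h h1 h2
    have h3 : b ^ 2 ≤ c ^ 2 := by nlinarith
    have b1 := abs_bd (x := c) (M := M) (by nlinarith [sq_nonneg a])
    have b2 := abs_bd (x := a) (M := M) (by nlinarith [sq_nonneg a, sq_nonneg c])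
    rw [mem_V]
    refine ⟨⟨⟨?_, ?_⟩, ⟨?_, ?_⟩, ⟨?_, ?_⟩⟩, h⟩ <;> linarith [b1.1, b1.2, b2.1, b2.2]
  refine card_zero (fun v => (v.1, v.2.1, - v.2.2)) ?_ ?_ ?_
  · rintro ⟨b, c, a⟩ hv
    rw [mem_D] at hv ⊢
    obtain ⟨hv, h1, h2⟩ := hv
    have h := (mem_V.1 hv).2
    exact ⟨bound _ _ _ (by rw [← h]; ring) h1 h2, h1, h2⟩
  · rintro ⟨b, c, a⟩ _
    ext <;> dsimp only <;> ring
  · rintro ⟨b, c, a⟩ hv he
    rw [mem_D] at hv
    have h := (mem_V.1 hv.1).2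
    simp only [Prod.mk.injEq] at he
    have h1 : a = 0 := by linarith [he.2.2]
    subst h1
    have h2 : M = 2 * c ^ 2 - b ^ 2 := by rw [← h]; ring
    have h3 := sq_mod8 c
    have h4 := sq_mod8 b
    omega

/-- fourth sign change, off the mirror -/
theorem D01 :
    ((D M fun b c a => (b < a ∧ 0 < b) ∧ c ≠ 0).card : ZMod 2) = 0 := by
  have bound : ∀ b c a : ℤ, 3 * a ^ 2 + 2 * c ^ 2 - b ^ 2 = M → b < a → 0 < b →
      (b, c, a) ∈ V M := by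
    intro b c a h h1 h2
    have h3 : b ^ 2 ≤ a ^ 2 := by nlinarith
    have b1 := abs_bd (x := a) (M := M) (by nlinarith [sq_nonneg c])
    have b2 := abs_bd (x := c) (M := M) (by nlinarith [sq_nonneg a, sq_nonneg c])
    rw [mem_V]
    refine ⟨⟨⟨?_, ?_⟩, ⟨?_, ?_⟩, ⟨?_, ?_⟩⟩, h⟩ <;> linarith [b1.1, b1.2, b2.1, b2.2]
  refine card_zero (fun v => (v.1, - v.2.1, v.2.2)) ?_ ?_ ?_
  · rintro ⟨b, c, a⟩ hv
    rw [mem_D] at hv ⊢
    obtain ⟨hv, ⟨h1, h2⟩, h3⟩ := hv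
    have h := (mem_V.1 hv).2
    exact ⟨bound _ _ _ (by rw [← h]; ring) h1 h2, ⟨h1, h2⟩, by simpa using h3⟩
  · rintro ⟨b, c, a⟩ _
    ext <;> dsimp only <;> ring
  · rintro ⟨b, c, a⟩ hv he
    rw [mem_D] at hv
    simp only [Prod.mk.injEq] at he
    exact hv.2.2 (by linarith [he.2.1])

/-- the weights of the sign changes -/
def wt (b c a : ℤ) : ZMod 2 :=
  (if b < a ∧ 0 < b then 1 else 0) + (if b < a ∧ ¬ b < a + c then 1 else 0) +
  (if b < a + c ∧ ¬ b < c then 1 else 0) + (if b < c ∧ 0 < b then 1 else 0) +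
  (if ¬ 0 < b ∧ ¬ b < 0 ∧ b < a ∧ ¬ b < c then 1 else 0)

theorem wt_neg (hM : M % 24 = 11) {a b c : ℤ}
    (h : 3 * a ^ 2 + 2 * c ^ 2 - b ^ 2 = M) :
    wt b c a + wt (-b) (-c) (-a) = 0 := by
  have n1 := s1_ne hM h
  have n2 := s2_ne hM h
  have n3 := s3_ne hM h
  have e1 : (-b < -a) ↔ ¬ (b < a) := by omega
  have e2 : (-b < -a + -c) ↔ ¬ (b < a + c) := by omega
  have e3 : (-b < -c) ↔ ¬ (b < c) := by omega
  have e4 : (0 < -b) ↔ b < 0 := by omega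
  have e5 : (-b < 0) ↔ 0 < b := by omega
  have e6 : b < 0 → ¬ (0 < b) := by omega
  simp only [wt, e1, e2, e3, e4, e5]
  by_cases c1 : b < a <;> by_cases c2 : b < a + c <;> by_cases c3 : b < c <;>
    by_cases c4 : 0 < b <;> by_cases c5 : b < 0 <;>
    first
    | exact absurd c4 (e6 c5)
    | (simp only [c1, c2, c3, c4, c5, not_true_eq_false, not_false_eq_true, and_true, and_false,
        true_and, false_and, if_true, if_false]; decide)

theorem sum_wt (hM : M % 24 = 11) : ∑ v ∈ V M, wt v.1 v.2.1 v.2.2 = 0 := by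
  refine sum_involution (fun v _ => (-v.1, -v.2.1, -v.2.2)) ?_ ?_ ?_ ?_
  · rintro ⟨b, c, a⟩ hv
    exact wt_neg hM (mem_V.1 hv).2
  · rintro ⟨b, c, a⟩ hv _ he
    simp only [Prod.mk.injEq] at he
    have h := (mem_V.1 hv).2
    have h1 : a = 0 := by linarith [he.2.2]
    have h2 : b = 0 := by linarith [he.1]
    have h3 : c = 0 := by linarith [he.2.1]
    subst h1 h2 h3
    norm_num at h
    omega
  · rintro ⟨b, c, a⟩ hv
    rw [mem_V] at hv ⊢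
    obtain ⟨⟨⟨h1, h2⟩, ⟨h3, h4⟩, h5, h6⟩, h7⟩ := hv
    refine ⟨⟨⟨?_, ?_⟩, ⟨?_, ?_⟩, ⟨?_, ?_⟩⟩, ?_⟩ <;> first | linarith | (rw [← h7]; ring)
  · rintro ⟨b, c, a⟩ _
    simp

theorem card_D {P : ℤ → ℤ → ℤ → Prop} [∀ b c a, Decidable (P b c a)] :
    ((D M P).card : ZMod 2) = ∑ v ∈ V M, if P v.1 v.2.1 v.2.2 then (1 : ZMod 2) else 0 := by
  rw [D, card_filter]
  push_cast
  rfl

/-- the sets on the two sides -/
theorem main (hM : M % 24 = 11) :
    ((D M fun b c a => (b < a ∧ 0 < b) ∧ c = 0).card : ZMod 2) =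
      ((D M fun b c a => ¬ 0 < b ∧ ¬ b < 0 ∧ b < a ∧ ¬ b < c).card : ZMod 2) := by
  have h := sum_wt hM
  simp only [wt, sum_add_distrib] at h
  rw [← card_D (P := fun b _ a => b < a ∧ 0 < b), ← card_D (P := fun b c a => b < a ∧ ¬ b < a + c),
    ← card_D (P := fun b c a => b < a + c ∧ ¬ b < c), ← card_D (P := fun b c _ => b < c ∧ 0 < b),
    ← card_D (P := fun b c a => ¬ 0 < b ∧ ¬ b < 0 ∧ b < a ∧ ¬ b < c), D12 hM, D23 hM, D30 hM] at h
  have h2 : ((D M fun b _ a => b < a ∧ 0 < b).card : ZMod 2) =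
      ((D M fun b c a => (b < a ∧ 0 < b) ∧ c = 0).card : ZMod 2) +
      ((D M fun b c a => (b < a ∧ 0 < b) ∧ c ≠ 0).card : ZMod 2) := by
    rw [card_D, card_D, card_D, ← sum_add_distrib]
    refine sum_congr rfl fun v _ => ?_
    by_cases c1 : (v.1 < v.2.2 ∧ 0 < v.1) <;> by_cases c2 : v.2.1 = 0 <;> simp [c1, c2]
  rw [h2, D01] at h
  have h3 : ∀ x y : ZMod 2, x + 0 + 0 + 0 + 0 + y = 0 → x = y := by decide
  exact h3 _ _ h

end Pool.Agent.Q247.TC.Parity
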