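import Pool.Agent.Q247.TC.Top
import Pool.Agent.Q247.TC.Parity

set_option autoImplicit false

/-!
# The coefficients modulo `8`
-/

namespace Pool.Agent.Q247.TC

open PowerSeries Finset

/-- `u`, with `φ(-q) = 1 - 2u` -/
noncomputable def u (K : ℕ) : ℤ⟦X⟧ := ∑ j ∈ range K, (-1) ^ j * X ^ ((j + 1) ^ 2)

theorem ph_eq (K : ℕ) : ph K = 1 - 2 * u K := by
  rw [ph, u, mul_sum, mul_sum, sub_eq_add_neg, ← sum_neg_distrib]
  congr 1
  refine sum_congr rfl fun j _ => by ring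

/-- the coefficients of the double sum -/
noncomputable def g (K i : ℕ) : ℤ := coeff i (X * gg K)

theorem coeff_natMul (m : ℕ) (n : ℕ) (f : ℤ⟦X⟧) : coeff n ((m : ℤ⟦X⟧) * f) = m * coeff n f := by
  rw [← nsmul_eq_mul, map_nsmul, nsmul_eq_mul]

theorem c_expand (n K : ℕ) (h : n ≤ 2 * K) : ∃ z : ℤ,
    c n = g K n + 2 * coeff n (X * gg K * u K) + 4 * coeff n (X * gg K * u K ^ 2) + 8 * z := by
  obtain ⟨r, hr⟩ := main_cg K
  rw [ph_eq] at hr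
  have h1 : genFun = X * gg K + ((2 : ℕ) : ℤ⟦X⟧) * (X * gg K * u K) +
      ((4 : ℕ) : ℤ⟦X⟧) * (X * gg K * u K ^ 2) + X ^ (2 * K + 1) * (r * (1 + 2 * u K + 4 * u K ^ 2)) +
      ((8 : ℕ) : ℤ⟦X⟧) * (u K ^ 3 * genFun) := by
    push_cast
    linear_combination (1 + 2 * u K + 4 * u K ^ 2) * hr
  refine ⟨coeff n (u K ^ 3 * genFun), ?_⟩
  have h2 : coeff n (X ^ (2 * K + 1) * (r * (1 + 2 * u K + 4 * u K ^ 2))) = 0 :=
    X_pow_dvd_iff.1 (dvd_mul_right _ _) n (by omega)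
  rw [c, g]
  conv_lhs => rw [h1]
  rw [map_add, map_add, map_add, map_add, coeff_natMul, coeff_natMul, coeff_natMul, h2]
  push_cast
  ring

theorem coeff_XRs (J i T : ℕ) (hT : i + 2 ≤ T) : coeff i (X ^ (J ^ 2 + 1) * Rs J) =
    ∑ t ∈ range T, if 3 * i + t ^ 2 = 3 * (J + t) ^ 2 + 1 then sg t else 0 := by
  rw [coeff_X_pow_mul']
  by_cases h : J ^ 2 + 1 ≤ i
  · rw [if_pos h]
    obtain ⟨r, rfl⟩ := Nat.exists_eq_add_of_le h
    rw [show J ^ 2 + 1 + r - (J ^ 2 + 1) = r by omega, coeff_Rs J r T (by omega)]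
    refine sum_congr rfl fun t _ => ?_
    have e : (3 * r + 2 = 2 * t ^ 2 + 6 * J * t) ↔
        (3 * (J ^ 2 + 1 + r) + t ^ 2 = 3 * (J + t) ^ 2 + 1) := by
      constructor <;> intro hh <;> nlinarith
    by_cases hc : 3 * r + 2 = 2 * t ^ 2 + 6 * J * t
    · rw [if_pos hc, if_pos (e.1 hc)]
    · rw [if_neg hc, if_neg (fun hh => hc (e.2 hh))]
  · rw [if_neg h]
    symm
    refine sum_eq_zero fun t _ => ?_
    rw [if_neg]
    intro hh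
    nlinarith [Nat.zero_le (J * t), Nat.zero_le (t ^ 2)]

/-- number of solutions of `3i = 2t²+1`, with signs -/
noncomputable def r0 (T i : ℕ) : ℤ := ∑ t ∈ range T, if 3 * i = 2 * t ^ 2 + 1 then sg t else 0

theorem g_eq (K i T : ℕ) (hT : i + 2 ≤ T) : g K i = r0 T i + 2 * ∑ j ∈ range K, (-1) ^ (j + 1) *
    ∑ t ∈ range T, if 3 * i + t ^ 2 = 3 * (j + 1 + t) ^ 2 + 1 then sg t else 0 := by
  have h1 : X * gg K = X ^ (0 ^ 2 + 1) * Rs 0 + ((2 : ℕ) : ℤ⟦X⟧) * ∑ j ∈ range K,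
      ((((-1) ^ (j + 1) : ℤ)) : ℤ⟦X⟧) * (X ^ ((j + 1) ^ 2 + 1) * Rs (j + 1)) := by
    have hA : (X : ℤ⟦X⟧) * Rs 0 = X ^ (0 ^ 2 + 1) * Rs 0 := by
      rw [show (0 : ℕ) ^ 2 + 1 = 1 by norm_num, pow_one]
    have hB : (X : ℤ⟦X⟧) * ∑ j ∈ range K, (-1) ^ (j + 1) * (X ^ ((j + 1) ^ 2) * Rs (j + 1)) =
        ∑ j ∈ range K, ((((-1) ^ (j + 1) : ℤ)) : ℤ⟦X⟧) * (X ^ ((j + 1) ^ 2 + 1) * Rs (j + 1)) := by
      rw [mul_sum]
      refine sum_congr rfl fun j _ => ?_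
      push_cast
      ring
    have hC : ((2 : ℕ) : ℤ⟦X⟧) = 2 := by norm_num
    rw [gg, mul_add, mul_left_comm, hA, hB, hC]
  have h2 : (∑ t ∈ range T, if 3 * i + t ^ 2 = 3 * (0 + t) ^ 2 + 1 then sg t else 0) = r0 T i := by
    rw [r0]
    refine sum_congr rfl fun t _ => ?_
    have e : (3 * i + t ^ 2 = 3 * (0 + t) ^ 2 + 1) ↔ (3 * i = 2 * t ^ 2 + 1) := by
      rw [zero_add]; omega
    by_cases hc : 3 * i = 2 * t ^ 2 + 1
    · rw [if_pos hc, if_pos (e.2 hc)]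
    · rw [if_neg hc, if_neg (fun hh => hc (e.1 hh))]
  have h3 : ∀ j ∈ range K, coeff i (((((-1) ^ (j + 1) : ℤ)) : ℤ⟦X⟧) *
      (X ^ ((j + 1) ^ 2 + 1) * Rs (j + 1))) = (-1) ^ (j + 1) *
      ∑ t ∈ range T, if 3 * i + t ^ 2 = 3 * (j + 1 + t) ^ 2 + 1 then sg t else 0 := by
    intro j _
    rw [← coeff_XRs (j + 1) i T hT]
    rcases Nat.even_or_odd (j + 1) with h | h
    · rw [h.neg_one_pow, one_mul, Int.cast_one, one_mul]
    · rw [h.neg_one_pow, neg_one_mul, Int.cast_neg, Int.cast_one, neg_one_mul, map_neg]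
  rw [g, h1, map_add, coeff_natMul, map_sum, coeff_XRs 0 i T hT, h2, sum_congr rfl h3]
  norm_num

theorem r0_zero {T i : ℕ} (h : ∀ t : ℕ, 3 * i ≠ 2 * t ^ 2 + 1) : r0 T i = 0 :=
  sum_eq_zero fun t _ => if_neg (h t)

theorem g_even {K i : ℕ} (h : ∀ t : ℕ, 3 * i ≠ 2 * t ^ 2 + 1) : (2 : ℤ) ∣ g K i := by
  rw [g_eq K i (i + 2) le_rfl, r0_zero h, zero_add]
  exact dvd_mul_right _ _

theorem g_zero {K i : ℕ} (h : ∀ J t : ℕ, 3 * i + t ^ 2 ≠ 3 * (J + t) ^ 2 + 1) : g K i = 0 := by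
  rw [g_eq K i (i + 2) le_rfl, r0_zero, zero_add]
  · rw [sum_eq_zero, mul_zero]
    intro j _
    rw [sum_eq_zero, mul_zero]
    intro t _
    exact if_neg (h (j + 1) t)
  · intro t ht
    have := h 0 t
    rw [zero_add] at this
    omega

theorem coeff_u (K n : ℕ) : coeff n (X * gg K * u K) =
    ∑ l ∈ range K, (-1) ^ l * if (l + 1) ^ 2 ≤ n then g K (n - (l + 1) ^ 2) else 0 := by
  rw [u, mul_sum, map_sum]
  refine sum_congr rfl fun l _ => ?_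
  rw [show X * gg K * ((-1) ^ l * X ^ ((l + 1) ^ 2)) = (-1) ^ l * (X * gg K * X ^ ((l + 1) ^ 2)) by
    ring]
  have h1 : coeff n (X * gg K * X ^ ((l + 1) ^ 2)) =
      if (l + 1) ^ 2 ≤ n then g K (n - (l + 1) ^ 2) else 0 := by
    rw [coeff_mul_X_pow']; rfl
  rcases Nat.even_or_odd l with h | h
  · rw [h.neg_one_pow, h.neg_one_pow, one_mul, one_mul, h1]
  · rw [h.neg_one_pow, h.neg_one_pow, neg_one_mul, neg_one_mul, map_neg, h1]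

theorem sq_sum (a : ℕ → ℤ⟦X⟧) (K : ℕ) : ∃ w, (∑ l ∈ range K, a l) ^ 2 =
    ∑ l ∈ range K, a l ^ 2 + ((2 : ℕ) : ℤ⟦X⟧) * w := by
  induction K with
  | zero => exact ⟨0, by simp⟩
  | succ K ih =>
    obtain ⟨w, hw⟩ := ih
    refine ⟨w + (∑ l ∈ range K, a l) * a K, ?_⟩
    rw [sum_range_succ, sum_range_succ, add_sq, hw]
    push_cast
    ring

theorem coeff_u2 (K n : ℕ) : ∃ w : ℤ, coeff n (X * gg K * u K ^ 2) =
    (∑ l ∈ range K, if 2 * (l + 1) ^ 2 ≤ n then g K (n - 2 * (l + 1) ^ 2) else 0) + 2 * w := by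
  obtain ⟨w, hw⟩ := sq_sum (fun j => (-1) ^ j * X ^ ((j + 1) ^ 2)) K
  refine ⟨coeff n (X * gg K * w), ?_⟩
  have h1 : X * gg K * u K ^ 2 = ∑ l ∈ range K, X * gg K * X ^ (2 * (l + 1) ^ 2) +
      ((2 : ℕ) : ℤ⟦X⟧) * (X * gg K * w) := by
    have hA : ∑ l ∈ range K, ((-1 : ℤ⟦X⟧) ^ l * X ^ ((l + 1) ^ 2)) ^ 2 =
        ∑ l ∈ range K, X ^ (2 * (l + 1) ^ 2) := by
      refine sum_congr rfl fun l _ => ?_
      have : ((-1 : ℤ⟦X⟧) ^ l) ^ 2 = 1 := by rw [← pow_mul, mul_comm, pow_mul]; norm_num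
      rw [mul_pow, this, one_mul, ← pow_mul, mul_comm 2]
    rw [u, hw, hA, mul_add, mul_sum, mul_left_comm]
  have h2 : ∀ l ∈ range K, coeff n (X * gg K * X ^ (2 * (l + 1) ^ 2)) =
      if 2 * (l + 1) ^ 2 ≤ n then g K (n - 2 * (l + 1) ^ 2) else 0 := by
    intro l _
    rw [coeff_mul_X_pow']; rfl
  rw [h1, map_add, coeff_natMul, map_sum, sum_congr rfl h2]
  norm_num

end Pool.Agent.Q247.TC
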