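import Mathlib

set_option autoImplicit false

/-!
# The limiting two-color partition function `c(n)`

`∑ c(n) q^n = ∑_{m ≥ 0} (-q^{2m+2}; q^2)_∞ q^{2m+1} / (q^{2m+1}; q^2)_∞^2` in `ℤ[[q]]`, where
infinite products and sums are taken in the topology of coefficientwise convergence.
-/

namespace Pool.Agent.Q247.TC

open PowerSeries
open scoped PowerSeries.WithPiTopology

/-- `(-q^{2m+2}; q^2)_∞ = ∏_{j ≥ 0} (1 + q^{2m+2+2j})` -/
noncomputable def evenProd (m : ℕ) : ℤ⟦X⟧ := ∏' j : ℕ, (1 + X ^ (2 * m + 2 + 2 * j))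

/-- `(q^{2m+1}; q^2)_∞ = ∏_{j ≥ 0} (1 - q^{2m+1+2j})` -/
noncomputable def oddProd (m : ℕ) : ℤ⟦X⟧ := ∏' j : ℕ, (1 - X ^ (2 * m + 1 + 2 * j))

/-- the summand `(-q^{2m+2}; q^2)_∞ q^{2m+1} / (q^{2m+1}; q^2)_∞^2`
(`invOfUnit P 1` is the inverse of a power series `P` with constant term `1`) -/
noncomputable def summand (m : ℕ) : ℤ⟦X⟧ :=
  evenProd m * X ^ (2 * m + 1) * invOfUnit (oddProd m) 1 ^ 2

/-- the generating function of `c` -/
noncomputable def genFun : ℤ⟦X⟧ := ∑' m : ℕ, summand m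

/-- the limiting two-color partition function -/
noncomputable def c (n : ℕ) : ℤ := coeff n genFun

end Pool.Agent.Q247.TC
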