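import Pool.Agent.Q247.TC.Parity

set_option autoImplicit false

/-!
# Descents and counting
-/

namespace Pool.Agent.Q247.TC

open Finset Parity

theorem par_sq {x : ℤ} : (x % 2 = 0 ∧ ∃ y, x = 2 * y) ∨ (x % 2 = 1 ∧ x ^ 2 % 8 = 1) := by
  rcases Int.even_or_odd' x with ⟨y, h | h⟩
  · left
    exact ⟨by omega, y, h⟩
  · right
    refine ⟨by omega, ?_⟩
    obtain ⟨z, hz⟩ : ∃ z, y * (y + 1) = 2 * z := (Int.even_mul_succ_self y).two_dvd
    have : x ^ 2 = 8 * z + 1 := by rw [h]; linear_combination 4 * hz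
    omega

theorem sq_even (y : ℤ) : (2 * y) ^ 2 = 4 * y ^ 2 := by ring

theorem tern {m : ℤ} (hm : m % 8 = 1) : ∀ (k : ℕ) (x y z : ℤ), 3 * x ^ 2 + 3 * y ^ 2 - z ^ 2 ≠ 4 ^ k * m := by
  intro k
  induction k with
  | zero =>
    intro x y z h
    have h1 := sq_mod8 x
    have h2 := sq_mod8 y
    have h3 := sq_mod8 z
    omega
  | succ k ih =>
    intro x y z h
    have e : (4 : ℤ) ^ (k + 1) * m = 4 * (4 ^ k * m) := by ring
    rw [e] at h
    rcases par_sq (x := x) with ⟨_, x', rfl⟩ | ⟨_, hx⟩ <;>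
      rcases par_sq (x := y) with ⟨_, y', rfl⟩ | ⟨_, hy⟩ <;>
      rcases par_sq (x := z) with ⟨_, z', rfl⟩ | ⟨_, hz⟩ <;>
      (try simp only [sq_even] at h) <;>
      first
      | exact ih x' y' z' (by linarith)
      | omega

theorem binA {m : ℤ} (hm : m % 2 = 1) : ∀ (k : ℕ) (x y : ℤ), 3 * x ^ 2 + y ^ 2 ≠ 2 * (4 ^ k * m) := by
  intro k
  induction k with
  | zero =>
    intro x y h
    rw [pow_zero, one_mul] at h
    have h1 := sq_mod8 x
    have h2 := sq_mod8 y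
    omega
  | succ k ih =>
    intro x y h
    have e : (4 : ℤ) ^ (k + 1) * m = 4 * (4 ^ k * m) := by ring
    rw [e] at h
    rcases par_sq (x := x) with ⟨_, x', rfl⟩ | ⟨_, hx⟩ <;>
      rcases par_sq (x := y) with ⟨_, y', rfl⟩ | ⟨_, hy⟩ <;>
      (try simp only [sq_even] at h) <;>
      first
      | exact ih x' y' (by linarith)
      | omega

theorem binB {m : ℤ} (hm : m % 4 = 3) : ∀ (k : ℕ) (x y : ℤ), 3 * x ^ 2 - y ^ 2 ≠ 2 * (4 ^ k * m) := by
  intro k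
  induction k with
  | zero =>
    intro x y h
    rw [pow_zero, one_mul] at h
    have h1 := sq_mod8 x
    have h2 := sq_mod8 y
    omega
  | succ k ih =>
    intro x y h
    have e : (4 : ℤ) ^ (k + 1) * m = 4 * (4 ^ k * m) := by ring
    rw [e] at h
    rcases par_sq (x := x) with ⟨_, x', rfl⟩ | ⟨_, hx⟩ <;>
      rcases par_sq (x := y) with ⟨_, y', rfl⟩ | ⟨_, hy⟩ <;>
      (try simp only [sq_even] at h) <;>
      first
      | exact ih x' y' (by linarith)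
      | omega

theorem binC {m : ℤ} (hm : m % 8 = 3) : ∀ (k : ℕ) (x y : ℤ), 6 * x ^ 2 + y ^ 2 ≠ 4 ^ k * m := by
  intro k
  induction k with
  | zero =>
    intro x y h
    rw [pow_zero, one_mul] at h
    have h1 := sq_mod8 x
    have h2 := sq_mod8 y
    omega
  | succ k ih =>
    intro x y h
    have e : (4 : ℤ) ^ (k + 1) * m = 4 * (4 ^ k * m) := by ring
    rw [e] at h
    rcases par_sq (x := x) with ⟨_, x', rfl⟩ | ⟨_, hx⟩ <;>
      rcases par_sq (x := y) with ⟨_, y', rfl⟩ | ⟨_, hy⟩ <;>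
      (try simp only [sq_even] at h) <;>
      first
      | exact ih x' y' (by linarith)
      | omega

theorem binD {m : ℤ} (hm : m % 8 = 3) (k : ℕ) (x y : ℤ) : 3 * x ^ 2 + 2 * y ^ 2 ≠ 2 * (4 ^ k * m) := by
  intro h
  rcases par_sq (x := x) with ⟨_, x', rfl⟩ | ⟨_, hx⟩
  · refine binC hm k x' y ?_
    rw [sq_even] at h
    linarith
  · omega

theorem sqA {m : ℤ} (hm : m % 2 = 1) : ∀ (k : ℕ) (x : ℤ), 2 * x ^ 2 ≠ 4 ^ k * m := by
  intro k
  induction k with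
  | zero => intro x h; rw [pow_zero, one_mul] at h; omega
  | succ k ih =>
    intro x h
    have e : (4 : ℤ) ^ (k + 1) * m = 4 * (4 ^ k * m) := by ring
    rw [e] at h
    rcases par_sq (x := x) with ⟨_, x', rfl⟩ | ⟨_, hx⟩
    · exact ih x' (by rw [sq_even] at h; linarith)
    · omega

theorem divA {m : ℤ} : ∀ (k : ℕ) (x y : ℤ), 3 * x ^ 2 - y ^ 2 = 4 ^ k * m →
    ∃ x' y', x = 2 ^ k * x' ∧ y = 2 ^ k * y' ∧ 3 * x' ^ 2 - y' ^ 2 = m := by
  intro k
  induction k with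
  | zero => intro x y h; exact ⟨x, y, by ring, by ring, by rw [h]; ring⟩
  | succ k ih =>
    intro x y h
    have e : (4 : ℤ) ^ (k + 1) * m = 4 * (4 ^ k * m) := by ring
    rw [e] at h
    rcases par_sq (x := x) with ⟨_, x', rfl⟩ | ⟨_, hx⟩ <;>
      rcases par_sq (x := y) with ⟨_, y', rfl⟩ | ⟨_, hy⟩ <;>
      (try simp only [sq_even] at h) <;>
      first
      | (obtain ⟨x'', y'', h1, h2, h3⟩ := ih x' y' (by linarith)
         exact ⟨x'', y'', by rw [h1]; ring, by rw [h2]; ring, h3⟩)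
      | (exfalso; omega)

theorem divB {m : ℤ} : ∀ (k : ℕ) (x y : ℤ), 3 * x ^ 2 + 2 * y ^ 2 = 4 ^ k * m →
    ∃ x' y', x = 2 ^ k * x' ∧ y = 2 ^ k * y' ∧ 3 * x' ^ 2 + 2 * y' ^ 2 = m := by
  intro k
  induction k with
  | zero => intro x y h; exact ⟨x, y, by ring, by ring, by rw [h]; ring⟩
  | succ k ih =>
    intro x y h
    have e : (4 : ℤ) ^ (k + 1) * m = 4 * (4 ^ k * m) := by ring
    rw [e] at h
    rcases par_sq (x := x) with ⟨_, x', rfl⟩ | ⟨_, hx⟩ <;>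
      rcases par_sq (x := y) with ⟨_, y', rfl⟩ | ⟨_, hy⟩ <;>
      (try simp only [sq_even] at h) <;>
      first
      | (obtain ⟨x'', y'', h1, h2, h3⟩ := ih x' y' (by linarith)
         exact ⟨x'', y'', by rw [h1]; ring, by rw [h2]; ring, h3⟩)
      | (exfalso; omega)

/-- solutions of `3(j+1+t)² = t² + (3n - 1)` -/
def SA (n : ℕ) : Finset (ℕ × ℕ) := (range (3 * n + 3) ×ˢ range (3 * n + 3)).filter
  fun v => 3 * n + v.2 ^ 2 = 3 * (v.1 + 1 + v.2) ^ 2 + 1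

/-- solutions of `3(l+1)² + 2t² = 3n - 1` -/
def SB (n : ℕ) : Finset (ℕ × ℕ) := (range (3 * n + 3) ×ˢ range (3 * n + 3)).filter
  fun v => 3 * n = 3 * (v.1 + 1) ^ 2 + 2 * v.2 ^ 2 + 1

theorem mem_SA {n j t : ℕ} : (j, t) ∈ SA n ↔ 3 * n + t ^ 2 = 3 * (j + 1 + t) ^ 2 + 1 := by
  rw [SA, mem_filter, mem_product, mem_range, mem_range]
  refine ⟨fun h => h.2, fun h => ⟨?_, h⟩⟩
  dsimp only
  have h1 : t ^ 2 + 2 * (j * t) + 2 * t ≤ (j + 1 + t) ^ 2 := by nlinarith [Nat.zero_le (j ^ 2)]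
  have h2 : (j + 1 + t) ^ 2 + (j + 1) ^ 2 + t ^ 2 ≤ 3 * n := by nlinarith [Nat.zero_le (j * t)]
  constructor <;> nlinarith [Nat.zero_le (j * t), Nat.zero_le (t ^ 2), Nat.zero_le (j ^ 2)]

theorem mem_SB {n j t : ℕ} : (j, t) ∈ SB n ↔ 3 * n = 3 * (j + 1) ^ 2 + 2 * t ^ 2 + 1 := by
  rw [SB, mem_filter, mem_product, mem_range, mem_range]
  refine ⟨fun h => h.2, fun h => ⟨?_, h⟩⟩
  dsimp only
  constructor <;> nlinarith [Nat.zero_le (j * t), Nat.zero_le (t ^ 2), Nat.zero_le (j ^ 2),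
    Nat.le_self_pow (two_ne_zero) t]

theorem card_SA {n k : ℕ} {m : ℤ} (h : 3 * (n : ℤ) = 4 ^ k * m + 1) (hm : m % 24 = 11) (h0 : 0 < m) :
    (SA n).card = (D m fun b c a => (b < a ∧ 0 < b) ∧ c = 0).card := by
  symm
  have hk : (0 : ℤ) < 2 ^ k := by positivity
  have h4 : (4 : ℤ) ^ k = 2 ^ k * 2 ^ k := by rw [← mul_pow]; norm_num
  refine Finset.card_bij (fun v _ => ((2 ^ k * (v.2.2 - v.1)).toNat - 1, (2 ^ k * v.1).toNat)) ?_ ?_ ?_
  · rintro ⟨b, c, a⟩ hv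
    rw [mem_D] at hv
    obtain ⟨hv, ⟨h1, h2⟩, rfl⟩ := hv
    have he := (mem_V.1 hv).2
    rw [mem_SA]
    dsimp only
    have p1 : 1 ≤ 2 ^ k * (a - b) := by nlinarith
    have p2 : 0 ≤ 2 ^ k * b := by positivity
    obtain ⟨J, hJ⟩ := Int.eq_ofNat_of_zero_le (show 0 ≤ 2 ^ k * (a - b) by omega)
    obtain ⟨B', hB⟩ := Int.eq_ofNat_of_zero_le p2
    rw [hJ] at p1
    obtain ⟨J', rfl⟩ : ∃ J', J = J' + 1 := ⟨J - 1, by omega⟩
    rw [hJ, hB, Int.toNat_natCast, Int.toNat_natCast, Nat.add_sub_cancel]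
    have e1 : (J' : ℤ) + 1 + B' = 2 ^ k * a := by
      rw [← hB]; push_cast at hJ; rw [← hJ]; ring
    zify
    rw [e1, ← hB, h, h4, ← he]
    ring
  · rintro ⟨b, c, a⟩ hv ⟨b', c', a'⟩ hv' he
    rw [mem_D] at hv hv'
    obtain ⟨_, ⟨h1, h2⟩, rfl⟩ := hv
    obtain ⟨_, ⟨h1', h2'⟩, rfl⟩ := hv'
    simp only [Prod.mk.injEq] at he
    have p1 : 1 ≤ 2 ^ k * (a - b) := by nlinarith
    have p2 : 0 ≤ 2 ^ k * b := by positivity
    have p1' : 1 ≤ 2 ^ k * (a' - b') := by nlinarith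
    have p2' : 0 ≤ 2 ^ k * b' := by positivity
    have e1 : 2 ^ k * (a - b) = 2 ^ k * (a' - b') := by omega
    have e2 : 2 ^ k * b = 2 ^ k * b' := by omega
    have e3 := mul_left_cancel₀ hk.ne' e1
    have e4 := mul_left_cancel₀ hk.ne' e2
    simp only [Prod.mk.injEq]
    exact ⟨e4, trivial, by linarith⟩
  · rintro ⟨j, t⟩ hj
    rw [mem_SA] at hj
    have e0 : 3 * ((j : ℤ) + 1 + t) ^ 2 - (t : ℤ) ^ 2 = 4 ^ k * m := by
      have : (3 * n + t ^ 2 : ℤ) = 3 * (j + 1 + t) ^ 2 + 1 := by exact_mod_cast hj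
      linarith
    obtain ⟨y, s, h1, h2, h3⟩ := divA k _ _ e0
    have ht : 0 < t := by
      rcases Nat.eq_zero_or_pos t with rfl | ht
      · exfalso
        generalize hq : (j + 1 + 0) ^ 2 = q at hj
        omega
      · exact ht
    have hs : 0 < s := by
      have : (0 : ℤ) < 2 ^ k * s := by rw [← h2]; exact_mod_cast ht
      exact (pos_iff_pos_of_mul_pos this).1 hk
    have hys : s < y := by
      have : (2 : ℤ) ^ k * s < 2 ^ k * y := by rw [← h1, ← h2]; push_cast; linarith [Int.natCast_nonneg j]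
      exact lt_of_mul_lt_mul_left this hk.le
    have hV : (s, 0, y) ∈ V m := by
      have b1 := abs_bd (x := y) (M := m) (by nlinarith)
      have b2 := abs_bd (x := s) (M := m) (by nlinarith)
      rw [mem_V]
      refine ⟨⟨⟨?_, ?_⟩, ⟨?_, ?_⟩, ⟨?_, ?_⟩⟩, ?_⟩ <;>
        first | linarith [b1.1, b1.2, b2.1, b2.2] | (rw [← h3]; ring)
    refine ⟨(s, 0, y), mem_D.2 ⟨hV, ⟨hys, hs⟩, rfl⟩, ?_⟩
    have e1 : 2 ^ k * (y - s) = (j : ℤ) + 1 := by
      have : 2 ^ k * (y - s) = 2 ^ k * y - 2 ^ k * s := by ring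
      rw [this, ← h1, ← h2]; ring
    dsimp only
    rw [e1, ← h2]
    ext
    · dsimp only; omega
    · dsimp only; omega

theorem card_SB {n k : ℕ} {m : ℤ} (h : 3 * (n : ℤ) = 4 ^ k * m + 1) (h0 : 0 < m) :
    (SB n).card = (D m fun b c a => ¬ 0 < b ∧ ¬ b < 0 ∧ b < a ∧ ¬ b < c).card := by
  symm
  have hk : (0 : ℤ) < 2 ^ k := by positivity
  have h4 : (4 : ℤ) ^ k = 2 ^ k * 2 ^ k := by rw [← mul_pow]; norm_num
  refine Finset.card_bij (fun v _ => ((2 ^ k * v.2.2).toNat - 1, (2 ^ k * (-v.2.1)).toNat)) ?_ ?_ ?_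
  · rintro ⟨b, c, a⟩ hv
    rw [mem_D] at hv
    obtain ⟨hv, h1, h2, h3, h5⟩ := hv
    obtain rfl : b = 0 := by omega
    have he := (mem_V.1 hv).2
    rw [mem_SB]
    dsimp only
    have p1 : 1 ≤ 2 ^ k * a := by nlinarith
    have p2 : 0 ≤ 2 ^ k * (-c) := mul_nonneg hk.le (by omega)
    zify
    rw [Nat.cast_sub (by omega), Int.toNat_of_nonneg (by omega), Int.toNat_of_nonneg p2, h, h4, ← he]
    push_cast
    ring
  · rintro ⟨b, c, a⟩ hv ⟨b', c', a'⟩ hv' he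
    rw [mem_D] at hv hv'
    obtain ⟨_, h1, h2, h3, h5⟩ := hv
    obtain ⟨_, h1', h2', h3', h5'⟩ := hv'
    obtain rfl : b = 0 := by omega
    obtain rfl : b' = 0 := by omega
    simp only [Prod.mk.injEq] at he
    have p1 : 1 ≤ 2 ^ k * a := by nlinarith
    have p2 : 0 ≤ 2 ^ k * (-c) := mul_nonneg hk.le (by omega)
    have p1' : 1 ≤ 2 ^ k * a' := by nlinarith
    have p2' : 0 ≤ 2 ^ k * (-c') := mul_nonneg hk.le (by omega)
    have e1 : 2 ^ k * a = 2 ^ k * a' := by omega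
    have e2 : 2 ^ k * (-c) = 2 ^ k * (-c') := by omega
    have e3 := mul_left_cancel₀ hk.ne' e1
    have e4 := mul_left_cancel₀ hk.ne' e2
    simp only [Prod.mk.injEq]
    exact ⟨trivial, by linarith, e3⟩
  · rintro ⟨j, t⟩ hj
    rw [mem_SB] at hj
    have e0 : 3 * ((j : ℤ) + 1) ^ 2 + 2 * (t : ℤ) ^ 2 = 4 ^ k * m := by
      have : (3 * n : ℤ) = 3 * (j + 1) ^ 2 + 2 * t ^ 2 + 1 := by exact_mod_cast hj
      linarith
    obtain ⟨y, s, h1, h2, h3⟩ := divB k _ _ e0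
    have hs : 0 ≤ s := by
      have : (0 : ℤ) ≤ 2 ^ k * s := by rw [← h2]; positivity
      exact nonneg_of_mul_nonneg_right this hk
    have hy : 0 < y := by
      have : (0 : ℤ) < 2 ^ k * y := by rw [← h1]; positivity
      exact (pos_iff_pos_of_mul_pos this).1 hk
    have hV : (0, -s, y) ∈ V m := by
      have b1 := abs_bd (x := y) (M := m) (by nlinarith [sq_nonneg s])
      have b2 := abs_bd (x := s) (M := m) (by nlinarith [sq_nonneg y, sq_nonneg s])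
      rw [mem_V]
      refine ⟨⟨⟨?_, ?_⟩, ⟨?_, ?_⟩, ⟨?_, ?_⟩⟩, ?_⟩ <;>
        first | linarith [b1.1, b1.2, b2.1, b2.2] | (rw [← h3]; ring)
    refine ⟨(0, -s, y), mem_D.2 ⟨hV, by omega, by omega, by omega, by omega⟩, ?_⟩
    dsimp only
    rw [neg_neg, ← h1, ← h2]
    ext
    · dsimp only; omega
    · dsimp only; omega

/-- **the parity relation** -/
theorem parity {n k : ℕ} {m : ℤ} (h : 3 * (n : ℤ) = 4 ^ k * m + 1) (hm : m % 24 = 11) (h0 : 0 < m) :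
    ((SA n).card : ZMod 2) = ((SB n).card : ZMod 2) := by
  rw [card_SA h hm h0, card_SB h h0, main hm]

end Pool.Agent.Q247.TC
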