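import Mathlib

set_option autoImplicit false

/-!
# Finite identities for a limiting two-color partition function

The finite form of the triple product at `z = 1` and a telescoping identity.
-/

namespace Pool.Agent.Q247.TC

open PowerSeries Finset

/-- `(q^2; q^2)_n` -/
noncomputable def E (n : ℕ) : ℤ⟦X⟧ := ∏ i ∈ range n, (1 - X ^ (2 * i + 2))

/-- `(-q^2; q^2)_n` -/
noncomputable def Nn (n : ℕ) : ℤ⟦X⟧ := ∏ i ∈ range n, (1 + X ^ (2 * i + 2))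

/-- `(q; q^2)_n` -/
noncomputable def p (n : ℕ) : ℤ⟦X⟧ := ∏ i ∈ range n, (1 - X ^ (2 * i + 1))

theorem E_succ (n : ℕ) : E (n + 1) = E n * (1 - X ^ (2 * n + 2)) := by
  rw [E, E, prod_range_succ]

theorem Nn_succ (n : ℕ) : Nn (n + 1) = Nn n * (1 + X ^ (2 * n + 2)) := by
  rw [Nn, Nn, prod_range_succ]

theorem p_succ (n : ℕ) : p (n + 1) = p n * (1 - X ^ (2 * n + 1)) := by
  rw [p, p, prod_range_succ]

theorem E_zero : E 0 = 1 := by simp [E]
theorem Nn_zero : Nn 0 = 1 := by simp [Nn]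
theorem p_zero : p 0 = 1 := by simp [p]

theorem cc_E (n : ℕ) : constantCoeff (E n) = 1 := by
  rw [E, map_prod]
  exact prod_eq_one fun i _ => by simp

theorem cc_Nn (n : ℕ) : constantCoeff (Nn n) = 1 := by
  rw [Nn, map_prod]
  exact prod_eq_one fun i _ => by simp

/-- the inverse of `E n` -/
noncomputable def ie (n : ℕ) : ℤ⟦X⟧ := invOfUnit (E n) 1

/-- the inverse of `Nn n` -/
noncomputable def NI (n : ℕ) : ℤ⟦X⟧ := invOfUnit (Nn n) 1

theorem E_ie (n : ℕ) : E n * ie n = 1 := mul_invOfUnit _ _ (by simp [cc_E])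

theorem Nn_NI (n : ℕ) : Nn n * NI n = 1 := mul_invOfUnit _ _ (by simp [cc_Nn])

theorem ie_succ (n : ℕ) : ie n = (1 - X ^ (2 * n + 2)) * ie (n + 1) := by
  have h1 := E_ie n
  have h2 := E_ie (n + 1)
  rw [E_succ] at h2
  calc ie n = ie n * (E n * (1 - X ^ (2 * n + 2)) * ie (n + 1)) := by rw [h2, mul_one]
    _ = (E n * ie n) * ((1 - X ^ (2 * n + 2)) * ie (n + 1)) := by ring
    _ = _ := by rw [h1, one_mul]

theorem NI_succ (n : ℕ) : NI n = (1 + X ^ (2 * n + 2)) * NI (n + 1) := by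
  have h1 := Nn_NI n
  have h2 := Nn_NI (n + 1)
  rw [Nn_succ] at h2
  calc NI n = NI n * (Nn n * (1 + X ^ (2 * n + 2)) * NI (n + 1)) := by rw [h2, mul_one]
    _ = (Nn n * NI n) * ((1 + X ^ (2 * n + 2)) * NI (n + 1)) := by ring
    _ = _ := by rw [h1, one_mul]

theorem ie_zero : ie 0 = 1 := by have := E_ie 0; rwa [E_zero, one_mul] at this
theorem NI_zero : NI 0 = 1 := by have := Nn_NI 0; rwa [Nn_zero, one_mul] at this

/-- the inverse of `E n`, zero for negative `n` -/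
noncomputable def iz (n : ℤ) : ℤ⟦X⟧ := if 0 ≤ n then ie n.toNat else 0

theorem iz_nat (n : ℕ) : iz (n : ℤ) = ie n := by simp [iz]

theorem iz_neg {n : ℤ} (h : n < 0) : iz n = 0 := by rw [iz, if_neg (by omega)]

/-- `iz (n-1) = (1 - q^{2n}) iz n` -/
theorem iz_pred (n : ℕ) : iz ((n : ℤ) - 1) = (1 - X ^ (2 * n)) * iz n := by
  cases n with
  | zero => rw [iz_neg (by norm_num)]; simp
  | succ n =>
    have e : ((n + 1 : ℕ) : ℤ) - 1 = (n : ℤ) := by push_cast; ring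
    rw [e, iz_nat, iz_nat, ie_succ]
    ring

/-- the Gaussian binomial `[2m, m+j]` in base `q^2` -/
noncomputable def B (m : ℕ) (j : ℕ) : ℤ⟦X⟧ := E (2 * m) * iz ((m : ℤ) - j) * iz ((m : ℤ) + j)

theorem B_eq_zero {m j : ℕ} (h : m < j) : B m j = 0 := by
  rw [B, iz_neg (n := (m : ℤ) - j) (by omega)]; ring

theorem E_two_succ (m : ℕ) :
    E (2 * (m + 1)) = E (2 * m) * (1 - X ^ (4 * m + 2)) * (1 - X ^ (4 * m + 4)) := by
  rw [show 2 * (m + 1) = (2 * m + 1) + 1 by ring, E_succ, E_succ]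
  ring

/-- the recurrence of the Gaussian binomials, `j ≥ 1` -/
theorem B_rec (m j : ℕ) :
    X ^ ((j + 1) ^ 2) * B (m + 1) (j + 1) = (1 + X ^ (4 * m + 2)) * (X ^ ((j + 1) ^ 2) * B m (j + 1)) +
      X ^ (2 * m + 1) * (X ^ (j ^ 2) * B m j + X ^ ((j + 2) ^ 2) * B m (j + 2)) := by
  rcases Nat.lt_or_ge m j with h | h
  · rw [B_eq_zero (show m + 1 < j + 1 by omega), B_eq_zero (show m < j + 1 by omega),
      B_eq_zero h, B_eq_zero (show m < j + 2 by omega)]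
    ring
  · obtain ⟨i, rfl⟩ := Nat.exists_eq_add_of_le h
    -- arguments
    have a1 : (((j + i + 1 : ℕ) : ℤ) - ((j + 1 : ℕ) : ℤ)) = ((i : ℕ) : ℤ) := by push_cast; ring
    have a2 : (((j + i + 1 : ℕ) : ℤ) + ((j + 1 : ℕ) : ℤ)) = ((2 * j + i + 2 : ℕ) : ℤ) := by
      push_cast; ring
    have a3 : (((j + i : ℕ) : ℤ) - ((j + 1 : ℕ) : ℤ)) = ((i : ℕ) : ℤ) - 1 := by push_cast; ring
    have a4 : (((j + i : ℕ) : ℤ) + ((j + 1 : ℕ) : ℤ)) = ((2 * j + i + 1 : ℕ) : ℤ) := by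
      push_cast; ring
    have a5 : (((j + i : ℕ) : ℤ) - ((j : ℕ) : ℤ)) = ((i : ℕ) : ℤ) := by push_cast; ring
    have a6 : (((j + i : ℕ) : ℤ) + ((j : ℕ) : ℤ)) = ((2 * j + i : ℕ) : ℤ) := by push_cast; ring
    have a8 : (((j + i : ℕ) : ℤ) + ((j + 2 : ℕ) : ℤ)) = ((2 * j + i + 2 : ℕ) : ℤ) := by
      push_cast; ring
    have b1 : ie (2 * j + i) = (1 - X ^ (4 * j + 2 * i + 2)) * ((1 - X ^ (4 * j + 2 * i + 4)) *
        ie (2 * j + i + 2)) := by
      rw [ie_succ (2 * j + i), ie_succ (2 * j + i + 1)]; ring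
    have b2 : ie (2 * j + i + 1) = (1 - X ^ (4 * j + 2 * i + 4)) * ie (2 * j + i + 2) := by
      rw [ie_succ (2 * j + i + 1)]; ring
    rw [B, B, B, B, a1, a2, a3, a4, a5, a6, a8, iz_pred, iz_nat, iz_nat, iz_nat, iz_nat, b1, b2,
      E_two_succ]
    cases i with
    | zero =>
      rw [iz_neg (show (((j + 0 : ℕ) : ℤ) - ((j + 2 : ℕ) : ℤ)) < 0 by push_cast; omega)]
      ring
    | succ i =>
      have a7 : (((j + (i + 1) : ℕ) : ℤ) - ((j + 2 : ℕ) : ℤ)) = ((i : ℕ) : ℤ) - 1 := by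
        push_cast; ring
      rw [a7, iz_pred, iz_nat, ie_succ i]
      ring

theorem B_rec_zero (m : ℕ) :
    B (m + 1) 0 = (1 + X ^ (4 * m + 2)) * B m 0 + 2 * (X ^ (2 * m + 1) * (X * B m 1)) := by
  have a1 : (((m + 1 : ℕ) : ℤ) - ((0 : ℕ) : ℤ)) = ((m + 1 : ℕ) : ℤ) := by push_cast; ring
  have a2 : (((m + 1 : ℕ) : ℤ) + ((0 : ℕ) : ℤ)) = ((m + 1 : ℕ) : ℤ) := by push_cast; ring
  have a3 : (((m : ℕ) : ℤ) - ((0 : ℕ) : ℤ)) = ((m : ℕ) : ℤ) := by push_cast; ring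
  have a4 : (((m : ℕ) : ℤ) + ((0 : ℕ) : ℤ)) = ((m : ℕ) : ℤ) := by push_cast; ring
  have a5 : (((m : ℕ) : ℤ) - ((1 : ℕ) : ℤ)) = ((m : ℕ) : ℤ) - 1 := by push_cast; ring
  have a6 : (((m : ℕ) : ℤ) + ((1 : ℕ) : ℤ)) = ((m + 1 : ℕ) : ℤ) := by push_cast; ring
  rw [B, B, B, a1, a2, a3, a4, a5, a6, iz_pred, iz_nat, iz_nat, ie_succ m, E_two_succ]
  ring

theorem alt_sum (T : ℕ → ℤ⟦X⟧) (M : ℕ) :
    ∑ j ∈ range M, (-1) ^ (j + 1) * (T j + T (j + 2)) =
      - T 0 - T 1 - 2 * ∑ j ∈ range M, (-1) ^ (j + 1) * T (j + 1) +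
        (-1) ^ M * (T M + T (M + 1)) := by
  induction M with
  | zero => simp
  | succ M ih =>
    rw [sum_range_succ, sum_range_succ, ih]
    ring

/-- the finite triple product at `z = 1` -/
theorem p_sq (m : ℕ) : ∀ M : ℕ, m ≤ M →
    p m ^ 2 = B m 0 + 2 * ∑ j ∈ range M, (-1) ^ (j + 1) * (X ^ ((j + 1) ^ 2) * B m (j + 1)) := by
  induction m with
  | zero =>
    intro M _
    have h : ∑ j ∈ range M, (-1) ^ (j + 1) * (X ^ ((j + 1) ^ 2) * B 0 (j + 1)) = 0 :=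
      sum_eq_zero fun j _ => by rw [B_eq_zero (by omega)]; ring
    rw [h, B]
    simp [p_zero, E_zero, iz, ie_zero]
  | succ m ih =>
    intro M hM
    have h0 := ih M (by omega)
    have h1 : ∑ j ∈ range M, (-1) ^ (j + 1) * (X ^ ((j + 1) ^ 2) * B (m + 1) (j + 1)) =
        (1 + X ^ (4 * m + 2)) * ∑ j ∈ range M, (-1) ^ (j + 1) * (X ^ ((j + 1) ^ 2) * B m (j + 1)) +
        X ^ (2 * m + 1) * ∑ j ∈ range M, (-1) ^ (j + 1) *
          (X ^ (j ^ 2) * B m j + X ^ ((j + 2) ^ 2) * B m (j + 2)) := by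
      rw [mul_sum, mul_sum, ← sum_add_distrib]
      refine sum_congr rfl fun j _ => ?_
      rw [B_rec]
      ring
    have h2 := alt_sum (fun j => X ^ (j ^ 2) * B m j) M
    rw [B_eq_zero (show m < M by omega), B_eq_zero (show m < M + 1 by omega)] at h2
    rw [p_succ, mul_pow, h0, h1, h2, B_rec_zero]
    simp only [ne_eq, OfNat.ofNat_ne_zero, not_false_eq_true, zero_pow, pow_zero, one_mul, mul_zero,
      add_zero, one_pow, pow_one]
    ring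

/-- the summand of the telescoping identity -/
noncomputable def F (m j : ℕ) : ℤ⟦X⟧ := X ^ (2 * m) * NI m * B m j

/-- the certificate -/
noncomputable def G (m j : ℕ) : ℤ⟦X⟧ :=
  X ^ (2 * j) * (1 + X ^ (2 * j + 2)) * E (2 * m) * NI m * iz ((m : ℤ) - j - 1) *
    iz ((m : ℤ) + j + 1)

theorem tele (m j : ℕ) : F m j + X ^ (6 * j + 6) * F m (j + 2) = G (m + 1) j - G m j := by
  rcases Nat.lt_or_ge m j with h | h
  · rw [F, F, G, G, B_eq_zero h, B_eq_zero (show m < j + 2 by omega),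
      iz_neg (n := ((m + 1 : ℕ) : ℤ) - j - 1) (by push_cast; omega),
      iz_neg (n := (m : ℤ) - j - 1) (by omega)]
    ring
  · obtain ⟨i, rfl⟩ := Nat.exists_eq_add_of_le h
    have a1 : (((j + i : ℕ) : ℤ) - ((j : ℕ) : ℤ)) = ((i : ℕ) : ℤ) := by push_cast; ring
    have a2 : (((j + i : ℕ) : ℤ) + ((j : ℕ) : ℤ)) = ((2 * j + i : ℕ) : ℤ) := by push_cast; ring
    have a4 : (((j + i : ℕ) : ℤ) + ((j + 2 : ℕ) : ℤ)) = ((2 * j + i + 2 : ℕ) : ℤ) := by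
      push_cast; ring
    have a5 : (((j + i + 1 : ℕ) : ℤ) - ((j : ℕ) : ℤ)) - 1 = ((i : ℕ) : ℤ) := by push_cast; ring
    have a6 : (((j + i + 1 : ℕ) : ℤ) + ((j : ℕ) : ℤ)) + 1 = ((2 * j + i + 2 : ℕ) : ℤ) := by
      push_cast; ring
    have a8 : (((j + i : ℕ) : ℤ) + ((j : ℕ) : ℤ)) + 1 = ((2 * j + i + 1 : ℕ) : ℤ) := by
      push_cast; ring
    have b1 : ie (2 * j + i) = (1 - X ^ (4 * j + 2 * i + 2)) * ((1 - X ^ (4 * j + 2 * i + 4)) *
        ie (2 * j + i + 2)) := by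
      rw [ie_succ (2 * j + i), ie_succ (2 * j + i + 1)]; ring
    have b2 : ie (2 * j + i + 1) = (1 - X ^ (4 * j + 2 * i + 4)) * ie (2 * j + i + 2) := by
      rw [ie_succ (2 * j + i + 1)]; ring
    rw [F, F, G, G, B, B, a8, a6, a5, a1, a2, a4, iz_pred, iz_nat, iz_nat, iz_nat, iz_nat, b1, b2,
      E_two_succ, NI_succ (j + i)]
    cases i with
    | zero =>
      rw [iz_neg (show (((j + 0 : ℕ) : ℤ) - ((j + 2 : ℕ) : ℤ)) < 0 by push_cast; omega)]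
      ring
    | succ i =>
      have a7 : (((j + (i + 1) : ℕ) : ℤ) - ((j + 2 : ℕ) : ℤ)) = ((i : ℕ) : ℤ) - 1 := by
        push_cast; ring
      rw [a7, iz_pred, iz_nat, ie_succ i]
      ring

end Pool.Agent.Q247.TC
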