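import Pool.Agent.Q247.TC.Fin

set_option autoImplicit false

/-!
# Congruences modulo powers of `q`
-/

namespace Pool.Agent.Q247.TC

open PowerSeries Finset

/-- congruence modulo `q^L` -/
def Cg (L : ℕ) (a b : ℤ⟦X⟧) : Prop := X ^ L ∣ a - b

namespace Cg

variable {L : ℕ} {a b c d : ℤ⟦X⟧}

theorem refl (L : ℕ) (a : ℤ⟦X⟧) : Cg L a a := by rw [Cg, sub_self]; exact dvd_zero _

theorem symm (h : Cg L a b) : Cg L b a := by
  rw [Cg] at *; rw [← neg_sub]; exact (dvd_neg).2 h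

theorem trans (h1 : Cg L a b) (h2 : Cg L b c) : Cg L a c := by
  rw [Cg] at *
  have := dvd_add h1 h2
  rwa [sub_add_sub_cancel] at this

theorem mono {L' : ℕ} (h : Cg L a b) (hL : L' ≤ L) : Cg L' a b :=
  (pow_dvd_pow X hL).trans h

theorem add (h1 : Cg L a b) (h2 : Cg L c d) : Cg L (a + c) (b + d) := by
  rw [Cg] at *
  have := dvd_add h1 h2
  convert this using 1; ring

theorem sub (h1 : Cg L a b) (h2 : Cg L c d) : Cg L (a - c) (b - d) := by
  rw [Cg] at *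
  have := dvd_sub h1 h2
  convert this using 1; ring

theorem mul (h1 : Cg L a b) (h2 : Cg L c d) : Cg L (a * c) (b * d) := by
  rw [Cg] at *
  have := dvd_add (dvd_mul_of_dvd_left h1 c) (dvd_mul_of_dvd_right h2 b)
  convert this using 1; ring

theorem mul_left (h : Cg L a b) (c : ℤ⟦X⟧) : Cg L (c * a) (c * b) := (refl L c).mul h

theorem shift (h : Cg L a b) (k : ℕ) : Cg (k + L) (X ^ k * a) (X ^ k * b) := by
  rw [Cg] at *
  rw [← mul_sub, pow_add]
  exact mul_dvd_mul_left _ h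

theorem sum {ι : Type*} {s : Finset ι} {f g : ι → ℤ⟦X⟧} (h : ∀ i ∈ s, Cg L (f i) (g i)) :
    Cg L (∑ i ∈ s, f i) (∑ i ∈ s, g i) := by
  rw [Cg, ← sum_sub_distrib]
  exact dvd_sum h

theorem of_dvd (h : X ^ L ∣ a) : Cg L a 0 := by rw [Cg, sub_zero]; exact h

theorem coeff_eq (h : Cg L a b) {n : ℕ} (hn : n < L) : coeff n a = coeff n b := by
  have := X_pow_dvd_iff.1 h n hn
  rwa [map_sub, sub_eq_zero] at this

end Cg

/-- `E_b / E_a` is `1` modulo `q^{2a+2}` -/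
theorem E_ie_cg (a b : ℕ) (h : a ≤ b) : Cg (2 * a + 2) (E b * ie a) 1 := by
  obtain ⟨k, rfl⟩ := Nat.exists_eq_add_of_le h
  induction k with
  | zero => rw [add_zero, E_ie]; exact Cg.refl _ _
  | succ k ih =>
    rw [show a + (k + 1) = (a + k) + 1 by ring, E_succ]
    have h1 := ih (by omega)
    have h2 : Cg (2 * a + 2) (1 - X ^ (2 * (a + k) + 2)) 1 := by
      rw [Cg]
      refine (pow_dvd_pow X (show 2 * a + 2 ≤ 2 * (a + k) + 2 by omega)).trans ⟨-1, by ring⟩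
    have h3 := h2.mul h1
    rw [one_mul] at h3
    convert h3 using 1; ring

/-- partial sums of `F` -/
noncomputable def Gam (K j : ℕ) : ℤ⟦X⟧ := ∑ m ∈ range K, F m j

theorem Gam_zero {K j : ℕ} (h : K ≤ j) : Gam K j = 0 :=
  sum_eq_zero fun m hm => by
    rw [F, B_eq_zero (lt_of_lt_of_le (mem_range.1 hm) h), mul_zero]

theorem G_zero (j : ℕ) : G 0 j = 0 := by
  rw [G, iz_neg (n := ((0 : ℕ) : ℤ) - j - 1) (by push_cast; omega)]; ring

theorem Gam_rec (K j : ℕ) : Gam K j + X ^ (6 * j + 6) * Gam K (j + 2) = G K j := by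
  induction K with
  | zero => rw [Gam_zero (by omega), Gam_zero (by omega), G_zero]; ring
  | succ K ih =>
    have h := tele K j
    rw [Gam, Gam, sum_range_succ, sum_range_succ]
    rw [Gam, Gam] at ih
    linear_combination ih + h

/-- the signs -/
def sg (t : ℕ) : ℤ := (-1) ^ (t / 3)

/-- the partial theta function `∑_{t} (-1)^{⌊t/3⌋} q^{2(t^2-1)/3+2jt}` -/
noncomputable def Rs (j : ℕ) : ℤ⟦X⟧ :=
  PowerSeries.mk fun n => ∑ t ∈ range (n + 2), if 3 * n + 2 = 2 * t ^ 2 + 6 * j * t then sg t else 0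

theorem coeff_Rs (j n T : ℕ) (hT : n + 2 ≤ T) : coeff n (Rs j) =
    ∑ t ∈ range T, if 3 * n + 2 = 2 * t ^ 2 + 6 * j * t then sg t else 0 := by
  rw [Rs, coeff_mk]
  refine sum_subset (range_subset_range.2 hT) fun t _ ht => ?_
  rw [if_neg]
  intro h
  have h1 : n + 2 ≤ t := by simpa using ht
  nlinarith [Nat.zero_le (j * t)]

theorem Rs_dvd (j : ℕ) : X ^ (2 * j) ∣ Rs j := by
  rw [X_pow_dvd_iff]
  intro n hn
  rw [Rs, coeff_mk]
  refine sum_eq_zero fun t _ => ?_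
  rw [if_neg]
  intro h
  rcases Nat.eq_zero_or_pos t with rfl | ht
  · omega
  · nlinarith [Nat.le_mul_of_pos_right j ht, Nat.mul_le_mul ht ht]

theorem Rs_rec (j : ℕ) : Rs j = X ^ (2 * j) + X ^ (4 * j + 2) - X ^ (6 * j + 6) * Rs (j + 2) := by
  ext n
  rw [map_sub, map_add, coeff_X_pow, coeff_X_pow, coeff_X_pow_mul',
    coeff_Rs j n (n + 2 + 3) (by omega), sum_range_succ', sum_range_succ', sum_range_succ']
  have h0 : (if 3 * n + 2 = 2 * 0 ^ 2 + 6 * j * 0 then sg 0 else 0) = 0 := by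
    rw [if_neg (by omega)]
  have h1 : (if 3 * n + 2 = 2 * (0 + 1) ^ 2 + 6 * j * (0 + 1) then sg (0 + 1) else 0) =
      if n = 2 * j then 1 else 0 := by
    by_cases h : n = 2 * j
    · rw [if_pos h, if_pos (by rw [h]; ring)]; simp [sg]
    · rw [if_neg h, if_neg (by omega)]
  have h2 : (if 3 * n + 2 = 2 * (0 + 1 + 1) ^ 2 + 6 * j * (0 + 1 + 1) then sg (0 + 1 + 1) else 0) =
      if n = 4 * j + 2 then 1 else 0 := by
    by_cases h : n = 4 * j + 2
    · rw [if_pos h, if_pos (by rw [h]; ring)]; simp [sg]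
    · rw [if_neg h, if_neg (by omega)]
  rw [h0, h1, h2]
  have h3 : ∑ k ∈ range (n + 2), (if 3 * n + 2 = 2 * (k + 1 + 1 + 1) ^ 2 + 6 * j * (k + 1 + 1 + 1)
      then sg (k + 1 + 1 + 1) else 0) =
      - if 6 * j + 6 ≤ n then coeff (n - (6 * j + 6)) (Rs (j + 2)) else 0 := by
    by_cases h : 6 * j + 6 ≤ n
    · rw [if_pos h, coeff_Rs (j + 2) (n - (6 * j + 6)) (n + 2) (by omega), ← sum_neg_distrib]
      refine sum_congr rfl fun k _ => ?_
      have hs : sg (k + 1 + 1 + 1) = - sg k := by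
        rw [sg, sg, show (k + 1 + 1 + 1) / 3 = k / 3 + 1 by omega, pow_succ]; ring
      have e : (3 * n + 2 = 2 * (k + 1 + 1 + 1) ^ 2 + 6 * j * (k + 1 + 1 + 1)) ↔
          (3 * (n - (6 * j + 6)) + 2 = 2 * k ^ 2 + 6 * (j + 2) * k) := by
        obtain ⟨r, rfl⟩ := Nat.exists_eq_add_of_le h
        rw [show 6 * j + 6 + r - (6 * j + 6) = r by omega]
        constructor <;> intro hh <;> nlinarith
      by_cases hc : 3 * (n - (6 * j + 6)) + 2 = 2 * k ^ 2 + 6 * (j + 2) * k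
      · rw [if_pos hc, if_pos (e.2 hc), hs]
      · rw [if_neg hc, if_neg (fun hh => hc (e.1 hh)), neg_zero]
    · rw [if_neg h, neg_zero]
      refine sum_eq_zero fun k _ => ?_
      rw [if_neg]
      intro hh
      nlinarith [Nat.zero_le (j * k), Nat.zero_le (k ^ 2)]
  rw [h3]
  ring

/-- claim A -/
theorem claimA (K : ℕ) : ∀ d j : ℕ, K ≤ j + d → Cg (2 * K) (Nn K * E K * Gam K j) (Rs j) := by
  intro d
  induction d using Nat.strong_induction_on with
  | _ d ih =>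
    intro j hj
    rcases Nat.lt_or_ge j K with h | h
    · have h1 := Gam_rec K j
      have h2 := ih (d - 1) (by omega) (j + 2) (by omega)
      obtain ⟨a, rfl⟩ : ∃ a, K = j + 1 + a := ⟨K - (j + 1), by omega⟩
      have a1 : (((j + 1 + a : ℕ) : ℤ) - (j : ℤ)) - 1 = ((a : ℕ) : ℤ) := by push_cast; ring
      have a2 : (((j + 1 + a : ℕ) : ℤ) + (j : ℤ)) + 1 = ((2 * j + 2 + a : ℕ) : ℤ) := by
        push_cast; ring
      have h3 : Nn (j + 1 + a) * E (j + 1 + a) * G (j + 1 + a) j =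
          X ^ (2 * j) * ((1 + X ^ (2 * j + 2)) * ((E (j + 1 + a) * ie a) *
            (E (2 * (j + 1 + a)) * ie (2 * j + 2 + a)))) := by
        rw [G, a1, a2, iz_nat, iz_nat]
        have := Nn_NI (j + 1 + a)
        linear_combination (X ^ (2 * j) * ((1 + X ^ (2 * j + 2)) * ((E (j + 1 + a) * ie a) *
            (E (2 * (j + 1 + a)) * ie (2 * j + 2 + a))))) * this
      have h4 : Cg (2 * a + 2) ((1 + X ^ (2 * j + 2)) * ((E (j + 1 + a) * ie a) *
            (E (2 * (j + 1 + a)) * ie (2 * j + 2 + a)))) ((1 + X ^ (2 * j + 2)) * (1 * 1)) :=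
        ((E_ie_cg a (j + 1 + a) (by omega)).mul
          ((E_ie_cg (2 * j + 2 + a) (2 * (j + 1 + a)) (by omega)).mono (by omega))).mul_left _
      have h5 := h4.shift (2 * j)
      rw [← h3] at h5
      have h6 := (h2.mul_left (X ^ (6 * j + 6)))
      have h7 := (h5.mono (show 2 * (j + 1 + a) ≤ 2 * j + (2 * a + 2) by omega)).sub h6
      convert h7 using 1
      · rw [← h1]; ring
      · rw [Rs_rec j]; ring
    · rw [Gam_zero h, mul_zero]
      exact (Cg.of_dvd ((pow_dvd_pow X (by omega)).trans (Rs_dvd j))).symm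

/-- the partial sums of the main series -/
noncomputable def SK (K : ℕ) : ℤ⟦X⟧ := ∑ m ∈ range K, X ^ (2 * m) * NI m * p m ^ 2

/-- the theta function `φ(-q)`, truncated -/
noncomputable def ph (K : ℕ) : ℤ⟦X⟧ := 1 + 2 * ∑ j ∈ range K, (-1) ^ (j + 1) * X ^ ((j + 1) ^ 2)

/-- the Hecke-type double sum, truncated (without the factor `q`) -/
noncomputable def gg (K : ℕ) : ℤ⟦X⟧ :=
  Rs 0 + 2 * ∑ j ∈ range K, (-1) ^ (j + 1) * (X ^ ((j + 1) ^ 2) * Rs (j + 1))

theorem SK_eq (K : ℕ) : SK K =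
    Gam K 0 + 2 * ∑ j ∈ range K, (-1) ^ (j + 1) * (X ^ ((j + 1) ^ 2) * Gam K (j + 1)) := by
  have h : ∀ m ∈ range K, X ^ (2 * m) * NI m * p m ^ 2 =
      F m 0 + ∑ j ∈ range K, 2 * ((-1) ^ (j + 1) * (X ^ ((j + 1) ^ 2) * F m (j + 1))) := by
    intro m hm
    rw [p_sq m K (mem_range.1 hm).le, mul_add, F, mul_sum, mul_sum]
    congr 1
    refine sum_congr rfl fun j _ => ?_
    rw [F]; ring
  rw [SK, sum_congr rfl h, sum_add_distrib, sum_comm, mul_sum, Gam]
  congr 1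
  refine sum_congr rfl fun j _ => ?_
  rw [Gam, mul_sum, mul_sum, mul_sum]

theorem SK_cg (K : ℕ) : Cg (2 * K) (Nn K * E K * SK K) (gg K) := by
  rw [SK_eq, gg, mul_add]
  refine (claimA K K 0 (by omega)).add ?_
  have : Nn K * E K * (2 * ∑ j ∈ range K, (-1) ^ (j + 1) * (X ^ ((j + 1) ^ 2) * Gam K (j + 1))) =
      2 * ∑ j ∈ range K, (-1) ^ (j + 1) * (X ^ ((j + 1) ^ 2) * (Nn K * E K * Gam K (j + 1))) := by
    rw [mul_sum, mul_sum, mul_sum]
    refine sum_congr rfl fun j _ => by ring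
  rw [this]
  refine Cg.mul_left (Cg.sum fun j _ => ?_) _
  exact ((claimA K K (j + 1) (by omega)).mul_left _).mul_left _

theorem ph_cg (K : ℕ) : Cg (2 * K + 1) (E K * p K ^ 2) (ph K) := by
  have hB : ∀ j, j ≤ K → Cg (2 * (K - j) + 2) (E K * B K j) 1 := by
    intro j hj
    obtain ⟨a, rfl⟩ := Nat.exists_eq_add_of_le hj
    have a1 : (((j + a : ℕ) : ℤ) - (j : ℤ)) = ((a : ℕ) : ℤ) := by push_cast; ring
    have a2 : (((j + a : ℕ) : ℤ) + (j : ℤ)) = ((2 * j + a : ℕ) : ℤ) := by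
      push_cast; ring
    rw [B, a1, a2, iz_nat, iz_nat, show j + a - j = a by omega]
    have h1 := (E_ie_cg a (j + a) (by omega)).mul
      ((E_ie_cg (2 * j + a) (2 * (j + a)) (by omega)).mono (show 2 * a + 2 ≤ _ by omega))
    rw [mul_one] at h1
    convert h1 using 1; ring
  rw [p_sq K K le_rfl, mul_add, ph]
  refine ((hB 0 (by omega)).mono (by omega)).add ?_
  have : E K * (2 * ∑ j ∈ range K, (-1) ^ (j + 1) * (X ^ ((j + 1) ^ 2) * B K (j + 1))) =
      2 * ∑ j ∈ range K, (-1) ^ (j + 1) * (X ^ ((j + 1) ^ 2) * (E K * B K (j + 1))) := by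
    rw [mul_sum, mul_sum, mul_sum]
    refine sum_congr rfl fun j _ => by ring
  rw [this]
  refine Cg.mul_left (Cg.sum fun j hj => ?_) _
  refine Cg.mul_left ?_ _
  have h2 := (hB (j + 1) (by have := mem_range.1 hj; omega)).shift ((j + 1) ^ 2)
  rw [mul_one] at h2
  refine h2.mono ?_
  have hj' := mem_range.1 hj
  obtain ⟨a, rfl⟩ : ∃ a, K = j + 1 + a := ⟨K - (j + 1), by omega⟩
  rw [show j + 1 + a - (j + 1) = a by omega]
  nlinarith [sq_nonneg (j : ℤ), Nat.zero_le (j ^ 2)]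

end Pool.Agent.Q247.TC
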