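import Pool.Agent.Q247.TC.Arith
import Pool.Agent.Q247.TC.Desc

set_option autoImplicit false

/-!
# The congruences
-/

namespace Pool.Agent.Q247.TC

open PowerSeries Finset Parity

theorem sub_eq {n a s b : ℕ} (ha : a ≤ n) (h : 3 * (n - a) + s = b) :
    3 * (n : ℤ) - 3 * a + s = b := by omega

/-- modulo `8` -/
theorem modB {n k : ℕ} {m : ℤ} (h : 3 * (n : ℤ) = 4 ^ k * m + 1) (hm : m % 8 = 1) :
    (8 : ℤ) ∣ c n := by
  obtain ⟨z, hz⟩ := c_expand n n (by omega)
  obtain ⟨w, hw⟩ := coeff_u2 n n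
  have h1 : g n n = 0 := by
    refine g_zero fun J t he => tern hm k 0 (J + t) t ?_
    have : (3 * n + t ^ 2 : ℤ) = 3 * (J + t) ^ 2 + 1 := by exact_mod_cast he
    linarith
  have h2 : coeff n (X * gg n * u n) = 0 := by
    rw [coeff_u]
    refine sum_eq_zero fun l _ => ?_
    split_ifs with hl
    · rw [g_zero, mul_zero]
      intro J t he
      refine tern hm k (l + 1) (J + t) t ?_
      have := sub_eq hl he
      push_cast at this
      linarith
    · rw [mul_zero]
  have h3 : (2 : ℤ) ∣ ∑ l ∈ range n, if 2 * (l + 1) ^ 2 ≤ n then g n (n - 2 * (l + 1) ^ 2) else 0 := by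
    refine dvd_sum fun l _ => ?_
    split_ifs with hl
    · refine g_even fun t he => ?_
      have h4 := sub_eq (s := 0) hl he
      push_cast at h4
      have h5 : 2 * (3 * ((l : ℤ) + 1) ^ 2 + (t : ℤ) ^ 2) = 4 ^ k * m := by linarith
      cases k with
      | zero => rw [pow_zero, one_mul] at h5; omega
      | succ k =>
        refine binA (by omega) k (l + 1) t (m := m) ?_
        have e : (4 : ℤ) ^ (k + 1) * m = 4 * (4 ^ k * m) := by ring
        rw [e] at h5
        linarith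
    · exact dvd_zero _
  obtain ⟨v, hv⟩ := h3
  rw [hz, hw, h1, h2, hv]
  exact ⟨v + w + z, by ring⟩

/-- modulo `4`, third family -/
theorem modC {n k : ℕ} {m : ℤ} (h : 3 * (n : ℤ) = 2 * (4 ^ k * m) + 1) (hm : m % 8 = 3) :
    (4 : ℤ) ∣ c n := by
  obtain ⟨z, hz⟩ := c_expand n n (by omega)
  have h1 : g n n = 0 := by
    refine g_zero fun J t he => binB (by omega) k (J + t) t (m := m) ?_
    have : (3 * n + t ^ 2 : ℤ) = 3 * (J + t) ^ 2 + 1 := by exact_mod_cast he
    linarith
  have h2 : (2 : ℤ) ∣ coeff n (X * gg n * u n) := by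
    rw [coeff_u]
    refine dvd_sum fun l _ => Dvd.dvd.mul_left ?_ _
    split_ifs with hl
    · refine g_even fun t he => ?_
      have h4 := sub_eq (s := 0) hl he
      push_cast at h4
      exact binD hm k (l + 1) t (by linarith)
    · exact dvd_zero _
  obtain ⟨v, hv⟩ := h2
  rw [hz, h1, hv]
  exact ⟨v + coeff n (X * gg n * u n ^ 2) + 2 * z, by ring⟩

theorem neg_one_z2 : (-1 : ZMod 2) = 1 := by decide

theorem cast_sg (t : ℕ) : ((sg t : ℤ) : ZMod 2) = 1 := by
  rw [sg]; push_cast; rw [neg_one_z2, one_pow]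

/-- modulo `4`, first family -/
theorem modA {n k : ℕ} {m : ℤ} (h : 3 * (n : ℤ) = 4 ^ k * m + 1) (hm : m % 24 = 11) (h0 : 0 < m) :
    (4 : ℤ) ∣ c n := by
  set K := 3 * n + 3 with hK
  obtain ⟨z, hz⟩ := c_expand n K (by omega)
  have hr : ∀ t : ℕ, 3 * n ≠ 2 * t ^ 2 + 1 := by
    intro t he
    have : (3 * n : ℤ) = 2 * t ^ 2 + 1 := by exact_mod_cast he
    exact sqA (by omega) k t (m := m) (by linarith)
  have h1 := g_eq K n K (by omega)
  rw [r0_zero hr, zero_add] at h1
  set S := ∑ j ∈ range K, (-1 : ℤ) ^ (j + 1) *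
    ∑ t ∈ range K, (if 3 * n + t ^ 2 = 3 * (j + 1 + t) ^ 2 + 1 then sg t else 0) with hS
  have h2 : ((S : ℤ) : ZMod 2) = ((SA n).card : ZMod 2) := by
    rw [hS, SA, card_filter, sum_product]
    push_cast
    refine sum_congr rfl fun j _ => ?_
    rw [neg_one_z2, one_pow, one_mul]
    refine sum_congr rfl fun t _ => ?_
    split_ifs with hc
    · exact cast_sg t
    · rfl
  have h3 : ((coeff n (X * gg K * u K) : ℤ) : ZMod 2) = ((SB n).card : ZMod 2) := by
    rw [coeff_u, SB, card_filter, sum_product]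
    push_cast
    refine sum_congr rfl fun l _ => ?_
    rw [neg_one_z2, one_pow, one_mul]
    split_ifs with hl
    · rw [g_eq K (n - (l + 1) ^ 2) K (by omega)]
      push_cast
      rw [show (2 : ZMod 2) = 0 by decide, zero_mul, add_zero, r0]
      push_cast
      refine sum_congr rfl fun t _ => ?_
      have e : (3 * (n - (l + 1) ^ 2) = 2 * t ^ 2 + 1) ↔ (3 * n = 3 * (l + 1) ^ 2 + 2 * t ^ 2 + 1) := by
        omega
      by_cases hc : 3 * n = 3 * (l + 1) ^ 2 + 2 * t ^ 2 + 1
      · rw [if_pos hc, if_pos (e.2 hc), cast_sg]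
      · rw [if_neg hc, if_neg (fun hh => hc (e.1 hh))]
    · symm
      refine sum_eq_zero fun t _ => if_neg ?_
      omega
  have h4 : (((S + coeff n (X * gg K * u K) : ℤ)) : ZMod 2) = 0 := by
    push_cast
    rw [h2, h3, parity h hm h0]
    exact CharTwo.add_self_eq_zero _
  obtain ⟨v, hv⟩ := (ZMod.intCast_zmod_eq_zero_iff_dvd _ 2).1 h4
  rw [hz, h1]
  refine ⟨v + coeff n (X * gg K * u K ^ 2) + 2 * z, ?_⟩
  push_cast at hv
  linear_combination 2 * hv

end Pool.Agent.Q247.TC
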