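import Pool.Agent.Q247.TC.Defs
import Pool.Agent.Q247.TC.Lim

set_option autoImplicit false

/-!
# The generating function and its Hecke-type double sum
-/

namespace Pool.Agent.Q247.TC

open PowerSeries Finset Filter
open scoped PowerSeries.WithPiTopology Topology

theorem tendsto_order {f : ℕ → ℤ⟦X⟧} (h : ∀ j, X ^ j ∣ f j) :
    Tendsto (fun i => (f i).order) atTop (𝓝 ⊤) := by
  refine ENat.tendsto_nhds_top_iff_natCast_lt.mpr (fun n => Filter.eventually_atTop.mpr ⟨n + 1, ?_⟩)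
  intro m hm
  refine lt_of_lt_of_le (b := (m : ℕ∞)) (by exact_mod_cast hm) ?_
  refine le_order _ _ fun i hi => ?_
  exact X_pow_dvd_iff.1 (h m) i (by exact_mod_cast hi)

theorem mult {f : ℕ → ℤ⟦X⟧} (h : ∀ j, X ^ j ∣ f j) : Multipliable (fun j => 1 + f j) :=
  WithPiTopology.multipliable_one_add_of_tendsto_order_atTop_nhds_top _ (tendsto_order h)

theorem summ {f : ℕ → ℤ⟦X⟧} (h : ∀ j, X ^ j ∣ f j) : Summable f :=
  WithPiTopology.summable_of_tendsto_order_atTop_nhds_top _ (tendsto_order h)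

theorem prod_cg {L : ℕ} {f : ℕ → ℤ⟦X⟧} (h : ∀ j, X ^ L ∣ f j) (s : Finset ℕ) :
    Cg L (∏ i ∈ s, (1 + f i)) 1 := by
  classical
  induction s using Finset.induction_on with
  | empty => rw [prod_empty]; exact Cg.refl _ _
  | insert a s ha ih =>
    rw [prod_insert ha]
    have h1 : Cg L (1 + f a) 1 := by rw [Cg]; simpa using h a
    have h2 := h1.mul ih
    rwa [one_mul] at h2

theorem tprod_cg {L : ℕ} {f : ℕ → ℤ⟦X⟧} (hm : Multipliable (fun j => 1 + f j))
    (h : ∀ j, X ^ L ∣ f j) : Cg L (∏' j, (1 + f j)) 1 := by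
  rw [Cg, X_pow_dvd_iff]
  intro n hn
  rw [map_sub, sub_eq_zero]
  have h1 : Tendsto (fun s : Finset ℕ => coeff n (∏ i ∈ s, (1 + f i))) atTop
      (𝓝 (coeff n (∏' j, (1 + f j)))) :=
    (WithPiTopology.continuous_coeff ℤ n).continuousAt.tendsto.comp hm.hasProd
  have h2 : (fun s : Finset ℕ => coeff n (∏ i ∈ s, (1 + f i))) = fun _ => coeff n (1 : ℤ⟦X⟧) := by
    funext s
    exact (prod_cg h s).coeff_eq hn
  rw [h2] at h1
  exact (tendsto_nhds_unique h1 tendsto_const_nhds).symm ▸ rfl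

theorem coeff_tsum {f : ℕ → ℤ⟦X⟧} (h : ∀ j, X ^ j ∣ f j) {n K : ℕ} (hn : n < K) :
    coeff n (∑' j, f j) = coeff n (∑ j ∈ range K, f j) := by
  have h1 : HasSum (fun j => coeff n (f j)) (coeff n (∑' j, f j)) :=
    (summ h).hasSum.map (coeff n : ℤ⟦X⟧ →ₗ[ℤ] ℤ) (WithPiTopology.continuous_coeff ℤ n)
  have h2 : HasSum (fun j => coeff n (f j)) (∑ j ∈ range K, coeff n (f j)) := by
    refine hasSum_sum_of_ne_finset_zero fun j hj => ?_
    have : K ≤ j := by simpa using hj
    exact X_pow_dvd_iff.1 (h j) n (by omega)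
  rw [h1.unique h2, map_sum]

theorem dvd_X_pow {a b : ℕ} (h : a ≤ b) : (X : ℤ⟦X⟧) ^ a ∣ X ^ b := pow_dvd_pow X h

theorem evenProd_mult (m : ℕ) : Multipliable (fun j : ℕ => (1 : ℤ⟦X⟧) + X ^ (2 * m + 2 + 2 * j)) :=
  mult fun j => dvd_X_pow (by omega)

theorem oddProd_mult (m : ℕ) : Multipliable (fun j : ℕ => (1 : ℤ⟦X⟧) - X ^ (2 * m + 1 + 2 * j)) := by
  have := mult (f := fun j => - (X : ℤ⟦X⟧) ^ (2 * m + 1 + 2 * j))
    (fun j => (dvd_neg).2 (dvd_X_pow (by omega)))
  simpa only [← sub_eq_add_neg] using this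

theorem evenProd_cg (m : ℕ) : Cg (2 * m + 2) (evenProd m) 1 :=
  tprod_cg (evenProd_mult m) fun j => dvd_X_pow (by omega)

theorem oddProd_cg (m : ℕ) : Cg (2 * m + 1) (oddProd m) 1 := by
  have := tprod_cg (L := 2 * m + 1) (f := fun j => - (X : ℤ⟦X⟧) ^ (2 * m + 1 + 2 * j))
    (by simpa only [← sub_eq_add_neg] using oddProd_mult m)
    (fun j => (dvd_neg).2 (dvd_X_pow (by omega)))
  rw [oddProd]
  simpa only [← sub_eq_add_neg] using this

theorem evenProd_succ (m : ℕ) : evenProd m = (1 + X ^ (2 * m + 2)) * evenProd (m + 1) := by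
  have h := evenProd_mult (m + 1)
  have e : (fun j : ℕ => (1 : ℤ⟦X⟧) + X ^ (2 * (m + 1) + 2 + 2 * j)) =
      fun j : ℕ => 1 + X ^ (2 * m + 2 + 2 * (j + 1)) := by
    funext j; rw [show 2 * (m + 1) + 2 + 2 * j = 2 * m + 2 + 2 * (j + 1) by omega]
  have h' := h
  rw [e] at h'
  have h2 := tprod_eq_zero_mul' (f := fun j : ℕ => (1 : ℤ⟦X⟧) + X ^ (2 * m + 2 + 2 * j)) h'
  have e0 : (1 : ℤ⟦X⟧) + X ^ (2 * m + 2 + 2 * 0) = 1 + X ^ (2 * m + 2) := by
    rw [mul_zero, add_zero]
  calc evenProd m = _ := h2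
    _ = (1 + X ^ (2 * m + 2 + 2 * 0)) * evenProd (m + 1) := by rw [evenProd, e]
    _ = _ := by rw [e0]

theorem oddProd_succ (m : ℕ) : oddProd m = (1 - X ^ (2 * m + 1)) * oddProd (m + 1) := by
  have h := oddProd_mult (m + 1)
  have e : (fun j : ℕ => (1 : ℤ⟦X⟧) - X ^ (2 * (m + 1) + 1 + 2 * j)) =
      fun j : ℕ => 1 - X ^ (2 * m + 1 + 2 * (j + 1)) := by
    funext j; rw [show 2 * (m + 1) + 1 + 2 * j = 2 * m + 1 + 2 * (j + 1) by omega]
  have h' := h
  rw [e] at h'
  have h2 := tprod_eq_zero_mul' (f := fun j : ℕ => (1 : ℤ⟦X⟧) - X ^ (2 * m + 1 + 2 * j)) h'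
  have e0 : (1 : ℤ⟦X⟧) - X ^ (2 * m + 1 + 2 * 0) = 1 - X ^ (2 * m + 1) := by
    rw [mul_zero, add_zero]
  calc oddProd m = _ := h2
    _ = (1 - X ^ (2 * m + 1 + 2 * 0)) * oddProd (m + 1) := by rw [oddProd, e]
    _ = _ := by rw [e0]

theorem cc_oddProd (m : ℕ) : constantCoeff (oddProd m) = 1 := by
  have := (oddProd_cg m).coeff_eq (n := 0) (by omega)
  simpa using this

theorem odd_inv (m : ℕ) : oddProd m * invOfUnit (oddProd m) 1 = 1 :=
  mul_invOfUnit _ _ (by simp [cc_oddProd])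

theorem even_Nn (m : ℕ) : evenProd 0 = Nn m * evenProd m := by
  induction m with
  | zero => rw [Nn_zero, one_mul]
  | succ m ih => rw [ih, evenProd_succ m, Nn_succ]; ring

theorem odd_p (m : ℕ) : oddProd 0 = p m * oddProd m := by
  induction m with
  | zero => rw [p_zero, one_mul]
  | succ m ih => rw [ih, oddProd_succ m, p_succ]; ring

theorem summand_dvd (m : ℕ) : X ^ (2 * m + 1) ∣ summand m := by
  rw [summand]
  exact ⟨evenProd m * invOfUnit (oddProd m) 1 ^ 2, by ring⟩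

theorem summand_dvd' (m : ℕ) : X ^ m ∣ summand m := (dvd_X_pow (by omega)).trans (summand_dvd m)

/-- the summands, after multiplication by the square of a partial product -/
theorem summand_mul (m K : ℕ) : summand m * p K ^ 2 =
    X ^ (2 * m + 1) * NI m * p m ^ 2 * Nn K * (evenProd K * invOfUnit (oddProd K) 1 ^ 2) := by
  have h1 := (even_Nn m).symm.trans (even_Nn K)
  have h2 := (odd_p m).symm.trans (odd_p K)
  have h3 := odd_inv m
  have h4 := odd_inv K
  have h5 := Nn_NI m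
  -- `evenProd m = Nn K * NI m * evenProd K`
  have e1 : evenProd m = Nn K * NI m * evenProd K := by
    calc evenProd m = (Nn m * NI m) * evenProd m := by rw [h5, one_mul]
      _ = NI m * (Nn m * evenProd m) := by ring
      _ = _ := by rw [h1]; ring
  -- `p K / oddProd m = p m / oddProd K`
  have e2 : invOfUnit (oddProd m) 1 * p K = p m * invOfUnit (oddProd K) 1 := by
    calc invOfUnit (oddProd m) 1 * p K
        = invOfUnit (oddProd m) 1 * p K * (oddProd K * invOfUnit (oddProd K) 1) := by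
          rw [h4, mul_one]
      _ = invOfUnit (oddProd m) 1 * (p K * oddProd K) * invOfUnit (oddProd K) 1 := by ring
      _ = (oddProd m * invOfUnit (oddProd m) 1) * p m * invOfUnit (oddProd K) 1 := by
          rw [← h2]; ring
      _ = _ := by rw [h3, one_mul]
  calc summand m * p K ^ 2 = evenProd m * X ^ (2 * m + 1) * (invOfUnit (oddProd m) 1 * p K) ^ 2 := by
        rw [summand]; ring
    _ = _ := by rw [e1, e2]; ring

theorem inv_cg {L : ℕ} {a b : ℤ⟦X⟧} (h : Cg L a 1) (hab : a * b = 1) : Cg L b 1 := by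
  have h1 := (h.mul_left b).symm
  rw [mul_one, mul_comm b a, hab] at h1
  exact h1

/-- **the Hecke-type double sum**: `C(q) φ(-q) = g(q)` modulo `q^{2K+1}` -/
theorem main_cg (K : ℕ) : Cg (2 * K + 1) (genFun * ph K) (X * gg K) := by
  -- truncation of the sum
  have h1 : Cg (2 * K + 1) genFun (∑ m ∈ range (2 * K + 1), summand m) := by
    rw [Cg, X_pow_dvd_iff]
    intro n hn
    rw [map_sub, sub_eq_zero, genFun, coeff_tsum summand_dvd' hn]
  have h2 : Cg (2 * K + 1) (∑ m ∈ range (2 * K + 1), summand m) (∑ m ∈ range K, summand m) := by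
    rw [show 2 * K + 1 = K + (K + 1) by ring, sum_range_add]
    have : Cg (K + (K + 1)) (∑ x ∈ range (K + 1), summand (K + x)) 0 := by
      refine Cg.of_dvd (dvd_sum fun x _ => (dvd_X_pow ?_).trans (summand_dvd (K + x)))
      omega
    have h3 := (Cg.refl (K + (K + 1)) (∑ m ∈ range K, summand m)).add this
    rwa [add_zero] at h3
  have h3 := h1.trans h2
  -- multiply by `E K * p K ^ 2`
  have h4 := (ph_cg K).mul_left genFun
  have h5 := h3.mul (Cg.refl (2 * K + 1) (E K * p K ^ 2))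
  have h6 : (∑ m ∈ range K, summand m) * (E K * p K ^ 2) =
      X * (Nn K * E K * SK K) * (evenProd K * invOfUnit (oddProd K) 1 ^ 2) := by
    rw [SK, sum_mul, mul_sum, mul_sum, sum_mul]
    refine sum_congr rfl fun m _ => ?_
    calc summand m * (E K * p K ^ 2) = E K * (summand m * p K ^ 2) := by ring
      _ = _ := by rw [summand_mul]; ring
  have h7 : Cg (2 * K + 1) (evenProd K * invOfUnit (oddProd K) 1 ^ 2) 1 := by
    have a1 := (evenProd_cg K).mono (show 2 * K + 1 ≤ 2 * K + 2 by omega)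
    have a2 := inv_cg (oddProd_cg K) (odd_inv K)
    have a3 := a1.mul (a2.mul a2)
    rw [mul_one, mul_one] at a3
    convert a3 using 1; ring
  have h8 := (SK_cg K).shift 1
  rw [pow_one, show 1 + 2 * K = 2 * K + 1 by ring] at h8
  have h9 := h8.mul h7
  rw [mul_one, ← h6] at h9
  exact (h4.symm.trans h5).trans h9

end Pool.Agent.Q247.TC
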